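import Mathlib

/-! The constant `a₀(m, k)`. -/

set_option autoImplicit false

namespace Pool.Agent.helper37.PR

/-- the optimal weight -/
noncomputable def q0 (m k : ℝ) : ℝ := 2 * m / (k + 2 * m + √(k ^ 2 + 8 * k * m))

/-- `a₀(m, k) = max {a : k x² + m y² - a x y² ≥ 0 for all x, y ≥ 0 with x² + y² ≤ 1}` -/
noncomputable def a0 (m k : ℝ) : ℝ := 2 * m / (√(q0 m k) * (1 + q0 m k))

variable {m k : ℝ}

theorem q0_pos (hm : 0 < m) (hk : 0 < k) : 0 < q0 m k := by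
  unfold q0; positivity

theorem q0_lt_one (hm : 0 < m) (hk : 0 < k) : q0 m k < 1 := by
  unfold q0
  have : 0 ≤ √(k ^ 2 + 8 * k * m) := Real.sqrt_nonneg _
  rw [div_lt_one (by positivity)]
  linarith

theorem q0_eq (hm : 0 < m) (hk : 0 < k) :
    (k - m) * q0 m k ^ 2 + (k + 2 * m) * q0 m k - m = 0 := by
  unfold q0
  set R := √(k ^ 2 + 8 * k * m) with hR
  have hR0 : 0 ≤ R := Real.sqrt_nonneg _
  have hR2 : R ^ 2 = k ^ 2 + 8 * k * m := Real.sq_sqrt (by positivity)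
  have hD : 0 < k + 2 * m + R := by positivity
  field_simp
  nlinarith

theorem a0_pos (hm : 0 < m) (hk : 0 < k) : 0 < a0 m k := by
  have := q0_pos hm hk
  unfold a0; positivity

theorem G_eq (hm : 0 < m) (hk : 0 < k) (s : ℝ) :
    (1 - s ^ 2) * (m - a0 m k * s) + k * s ^ 2 =
      (s - √(q0 m k)) ^ 2 * (a0 m k * s + m / q0 m k) := by
  have hq := q0_pos hm hk
  have h1 := q0_eq hm hk
  set q := q0 m k with hqdef
  have hs0 : 0 < √q := Real.sqrt_pos.2 hq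
  have hs2 : √q ^ 2 = q := Real.sq_sqrt hq.le
  set p := √q with hp
  have ha : a0 m k = 2 * m / (p * (1 + q)) := rfl
  rw [ha, ← hs2]
  rw [← hs2] at h1
  have hk1 : k * (p ^ 2 * (1 + p ^ 2)) = m * (1 - 2 * p ^ 2 + p ^ 4) := by nlinarith
  have hk2 : k = m * (1 - 2 * p ^ 2 + p ^ 4) / (p ^ 2 * (1 + p ^ 2)) := by
    rw [eq_div_iff (by positivity)]; exact hk1
  rw [hk2]
  field_simp
  ring

theorem a0_strict (hm : 0 < m) (hk : 0 < k) {x y : ℝ} (hx : 0 ≤ x) (hxy : x ^ 2 + y ^ 2 < 1)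
    (h0 : x ≠ 0 ∨ y ≠ 0) : 0 < k * x ^ 2 + m * y ^ 2 - a0 m k * x * y ^ 2 := by
  have h1 := G_eq hm hk x
  have ha := a0_pos hm hk
  have hq := q0_pos hm hk
  have h2 : 0 ≤ (x - √(q0 m k)) ^ 2 * (a0 m k * x + m / q0 m k) := by positivity
  rcases le_or_gt (a0 m k * x) m with h3 | h3
  · rcases hx.eq_or_lt with h4 | h4
    · rw [← h4]
      have : y ≠ 0 := by
        rcases h0 with h0 | h0
        · exact absurd h4.symm h0
        · exact h0
      have : 0 < y ^ 2 := by positivity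
      nlinarith
    · have : 0 < k * x ^ 2 := by positivity
      nlinarith [mul_nonneg (sub_nonneg.2 h3) (sq_nonneg y)]
  · have h5 : y ^ 2 < 1 - x ^ 2 := by linarith
    nlinarith

theorem a0_nonneg (hm : 0 < m) (hk : 0 < k) {x y : ℝ} (hx : 0 ≤ x) (hxy : x ^ 2 + y ^ 2 ≤ 1) :
    0 ≤ k * x ^ 2 + m * y ^ 2 - a0 m k * x * y ^ 2 := by
  have h1 := G_eq hm hk x
  have ha := a0_pos hm hk
  have hq := q0_pos hm hk
  have h2 : 0 ≤ (x - √(q0 m k)) ^ 2 * (a0 m k * x + m / q0 m k) := by positivity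
  rcases le_or_gt (a0 m k * x) m with h3 | h3
  · have : 0 ≤ k * x ^ 2 := by positivity
    nlinarith [mul_nonneg (sub_nonneg.2 h3) (sq_nonneg y)]
  · have h5 : y ^ 2 ≤ 1 - x ^ 2 := by linarith
    nlinarith

theorem a0_value (hm : 0 < m) (hk : 0 < k) :
    (1 - q0 m k) * m + q0 m k * k = a0 m k * ((1 - q0 m k) * √(q0 m k)) := by
  have h1 := G_eq hm hk (√(q0 m k))
  rw [Real.sq_sqrt (q0_pos hm hk).le, sub_self] at h1
  nlinarith

/-- `a₀(m, k)` is the number of the problem file -/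
theorem a0_isGreatest (hm : 0 < m) (hk : 0 < k) :
    IsGreatest {a : ℝ | 0 < a ∧ ∀ x y : ℝ, 0 ≤ x → 0 ≤ y → x ^ 2 + y ^ 2 ≤ 1 →
      0 ≤ k * x ^ 2 + m * y ^ 2 - a * x * y ^ 2} (a0 m k) := by
  refine ⟨⟨a0_pos hm hk, fun x y hx _ hxy => a0_nonneg hm hk hx hxy⟩, ?_⟩
  rintro a ⟨-, ha⟩
  have hq := q0_pos hm hk
  have hq1 := q0_lt_one hm hk
  have h1 := ha (√(q0 m k)) (√(1 - q0 m k)) (Real.sqrt_nonneg _) (Real.sqrt_nonneg _) (by
    rw [Real.sq_sqrt hq.le, Real.sq_sqrt (by linarith)]; linarith)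
  rw [Real.sq_sqrt hq.le, Real.sq_sqrt (by linarith)] at h1
  have h2 := a0_value hm hk
  have h3 : 0 < (1 - q0 m k) * √(q0 m k) := mul_pos (by linarith) (Real.sqrt_pos.2 hq)
  have h4 : a * ((1 - q0 m k) * √(q0 m k)) ≤ a0 m k * ((1 - q0 m k) * √(q0 m k)) := by
    nlinarith
  exact le_of_mul_le_mul_right h4 h3

theorem a0_one : a0 1 1 = 3 * √3 / 2 := by
  have h9 : √(9 : ℝ) = 3 := by
    rw [show (9 : ℝ) = 3 ^ 2 by norm_num, Real.sqrt_sq (by norm_num)]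
  have hq : q0 1 1 = 1 / 3 := by
    unfold q0
    rw [show (1 : ℝ) ^ 2 + 8 * 1 * 1 = 9 by norm_num, h9]
    norm_num
  unfold a0
  rw [hq, Real.sqrt_div (by norm_num), Real.sqrt_one]
  have h3 : 0 < √(3 : ℝ) := Real.sqrt_pos.2 (by norm_num)
  have h32 : √(3 : ℝ) ^ 2 = 3 := Real.sq_sqrt (by norm_num)
  field_simp
  norm_num

end Pool.Agent.helper37.PR
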