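import Pool.Agent.helper37.PR.Flow
import Pool.Agent.helper37.PR.Const

/-! The extremal map. -/

set_option autoImplicit false

namespace Pool.Agent.helper37.PR

open Metric MeasureTheory Set Filter Topology Asymptotics

variable {E : Type*} [NormedAddCommGroup E] [InnerProductSpace ℂ E] [CompleteSpace E]
variable {A : E →L[ℂ] E} {m k : ℝ}

omit [InnerProductSpace ℂ E] [CompleteSpace E] in
theorem exp_hasDerivAt [NormedSpace ℂ E] [CompleteSpace E] (B : E →L[ℂ] E) (t : ℝ) :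
    HasDerivAt (fun s : ℝ => NormedSpace.exp ((s : ℂ) • B))
      (NormedSpace.exp ((t : ℂ) • B) * B) t := by
  have h1 := hasDerivAt_exp_smul_const (𝕂 := ℂ) B ((t : ℝ) : ℂ)
  have h2 : HasDerivAt (fun s : ℝ => ((s : ℝ) : ℂ)) 1 t := Complex.ofRealCLM.hasDerivAt
  have h3 := h1.scomp t h2
  rw [one_smul] at h3
  exact h3

omit [InnerProductSpace ℂ E] [CompleteSpace E] in
theorem exp_hasDerivAt' [NormedSpace ℂ E] [CompleteSpace E] (B : E →L[ℂ] E) (t : ℝ) :
    HasDerivAt (fun s : ℝ => NormedSpace.exp ((s : ℂ) • B))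
      (B * NormedSpace.exp ((t : ℂ) • B)) t := by
  have h1 := hasDerivAt_exp_smul_const' (𝕂 := ℂ) B ((t : ℝ) : ℂ)
  have h2 : HasDerivAt (fun s : ℝ => ((s : ℝ) : ℂ)) 1 t := Complex.ofRealCLM.hasDerivAt
  have h3 := h1.scomp t h2
  rw [one_smul] at h3
  exact h3

theorem exp_eigen (B : E →L[ℂ] E) {x : E} {lam : ℂ} (hx : B x = lam • x) (t : ℝ) :
    (NormedSpace.exp ((t : ℂ) • B)) x = Complex.exp ((t : ℂ) * lam) • x := by
  set g : ℝ → E := fun s => Complex.exp (-((s : ℂ) * lam)) • ((NormedSpace.exp ((s : ℂ) • B)) x)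
    with hg
  have hd : ∀ s, HasDerivAt g 0 s := by
    intro s
    have h2 : HasDerivAt (fun s : ℝ => ((s : ℝ) : ℂ)) 1 s := Complex.ofRealCLM.hasDerivAt
    have h1 : HasDerivAt (fun s : ℝ => Complex.exp (-((s : ℂ) * lam)))
        (Complex.exp (-((s : ℂ) * lam)) * (-(1 * lam))) s := ((h2.mul_const lam).neg).cexp
    have h3 := ((ContinuousLinearMap.apply ℂ E x).restrictScalars ℝ).hasFDerivAt.comp_hasDerivAt s
      (exp_hasDerivAt B s)
    have h4 : HasDerivAt (fun s : ℝ => (NormedSpace.exp ((s : ℂ) • B)) x)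
        ((NormedSpace.exp ((s : ℂ) • B)) (B x)) s := h3
    have h5 := h1.smul h4
    have h6 : Complex.exp (-((s : ℂ) * lam)) • ((NormedSpace.exp ((s : ℂ) • B)) (B x)) +
        (Complex.exp (-((s : ℂ) * lam)) * (-(1 * lam))) • ((NormedSpace.exp ((s : ℂ) • B)) x) = 0 := by
      rw [hx, map_smul, smul_smul, ← add_smul]
      have : Complex.exp (-((s : ℂ) * lam)) * lam +
        Complex.exp (-((s : ℂ) * lam)) * (-(1 * lam)) = 0 := by ring
      rw [this, zero_smul]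
    rw [h6] at h5
    exact h5
  have hconst : g t = g 0 :=
    is_const_of_deriv_eq_zero (fun s => (hd s).differentiableAt) (fun s => (hd s).deriv) t 0
  have h0 : g 0 = x := by simp [hg]
  rw [h0] at hconst
  have h1 := congrArg (fun y => Complex.exp ((t : ℂ) * lam) • y) hconst
  simp only [hg, smul_smul, ← Complex.exp_add, add_neg_cancel, Complex.exp_zero, one_smul] at h1
  exact h1

theorem exp_cancel (B : E →L[ℂ] E) (t : ℝ) (x : E) :
    (NormedSpace.exp ((t : ℂ) • B)) ((NormedSpace.exp (((-t : ℝ) : ℂ) • B)) x) = x := by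
  have h1 : NormedSpace.exp ((t : ℂ) • B) * NormedSpace.exp (((-t : ℝ) : ℂ) • B) = 1 := by
    let _ : NormedAlgebra ℚ (E →L[ℂ] E) := NormedAlgebra.restrictScalars ℚ ℂ _
    rw [← NormedSpace.exp_add_of_commute]
    · rw [← add_smul]; simp
    · exact ((Commute.refl B).smul_left _).smul_right _
  have h2 := congrArg (fun L : E →L[ℂ] E => L x) h1
  exact h2

/-- the data of the extremal map -/
structure Frame (A : E →L[ℂ] E) (m k : ℝ) (e₁ e₂ : E) (l₁ l₂ : ℂ) : Prop where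
  n1 : ‖e₁‖ = 1
  n2 : ‖e₂‖ = 1
  ortho : inner ℂ e₂ e₁ = (0 : ℂ)
  eig1 : A e₁ = l₁ • e₁
  eig2 : A e₂ = l₂ • e₂
  adj1 : ContinuousLinearMap.adjoint A e₁ = (starRingEnd ℂ) l₁ • e₁
  adj2 : ContinuousLinearMap.adjoint A e₂ = (starRingEnd ℂ) l₂ • e₂
  re1 : l₁.re = k
  re2 : l₂.re = m

variable {e₁ e₂ : E} {l₁ l₂ : ℂ}

theorem Frame.self1 (hF : Frame A m k e₁ e₂ l₁ l₂) : inner ℂ e₁ e₁ = (1 : ℂ) := by
  rw [inner_self_eq_norm_sq_to_K, hF.n1]; simp

theorem Frame.self2 (hF : Frame A m k e₁ e₂ l₁ l₂) : inner ℂ e₂ e₂ = (1 : ℂ) := by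
  rw [inner_self_eq_norm_sq_to_K, hF.n2]; simp

theorem Frame.ortho' (hF : Frame A m k e₁ e₂ l₁ l₂) : inner ℂ e₁ e₂ = (0 : ℂ) := by
  rw [← inner_conj_symm, hF.ortho, map_zero]

/-- splitting a vector along the frame -/
theorem Frame.split (hN : Num A m k) (hF : Frame A m k e₁ e₂ l₁ l₂) (z : E) :
    k * ‖(inner ℂ e₁ z : ℂ)‖ ^ 2 + m * ‖(inner ℂ e₂ z : ℂ)‖ ^ 2 +
      m * ‖z - (inner ℂ e₁ z : ℂ) • e₁ - (inner ℂ e₂ z : ℂ) • e₂‖ ^ 2 ≤ (inner ℂ z (A z)).re := by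
  set x : ℂ := inner ℂ e₁ z with hx
  set y : ℂ := inner ℂ e₂ z with hy
  set w : E := z - x • e₁ - y • e₂ with hw
  have hz : z = w + x • e₁ + y • e₂ := by rw [hw]; abel
  have hw1 : inner ℂ e₁ w = (0 : ℂ) := by
    rw [hw, inner_sub_right, inner_sub_right, inner_smul_right, inner_smul_right, hF.self1,
      hF.ortho', ← hx]; ring
  have hw2 : inner ℂ e₂ w = (0 : ℂ) := by
    rw [hw, inner_sub_right, inner_sub_right, inner_smul_right, inner_smul_right, hF.self2,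
      hF.ortho, ← hy]; ring
  have hw1' : inner ℂ w e₁ = (0 : ℂ) := by rw [← inner_conj_symm, hw1, map_zero]
  have hw2' : inner ℂ w e₂ = (0 : ℂ) := by rw [← inner_conj_symm, hw2, map_zero]
  have hA1 : inner ℂ e₁ (A w) = (0 : ℂ) := by
    rw [← ContinuousLinearMap.adjoint_inner_left, hF.adj1, inner_smul_left, hw1, mul_zero]
  have hA2 : inner ℂ e₂ (A w) = (0 : ℂ) := by
    rw [← ContinuousLinearMap.adjoint_inner_left, hF.adj2, inner_smul_left, hw2, mul_zero]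
  have hexp : inner ℂ z (A z) = inner ℂ w (A w) + l₁ * ((‖x‖ ^ 2 : ℝ) : ℂ) +
      l₂ * ((‖y‖ ^ 2 : ℝ) : ℂ) := by
    have e1 : ((‖x‖ ^ 2 : ℝ) : ℂ) = x * (starRingEnd ℂ) x := by
      rw [Complex.mul_conj, Complex.normSq_eq_norm_sq]
    have e2 : ((‖y‖ ^ 2 : ℝ) : ℂ) = y * (starRingEnd ℂ) y := by
      rw [Complex.mul_conj, Complex.normSq_eq_norm_sq]
    rw [hz, map_add, map_add, map_smul, map_smul, hF.eig1, hF.eig2]
    simp only [inner_add_left, inner_add_right, inner_smul_left, inner_smul_right, hA1, hA2, hw1',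
      hw2', hF.self1, hF.self2, hF.ortho, hF.ortho']
    rw [e1, e2]
    ring
  rw [hexp]
  simp only [Complex.add_re]
  rw [mul_comm l₁, mul_comm l₂, Complex.re_ofReal_mul, Complex.re_ofReal_mul, hF.re1, hF.re2]
  have := hN.lower w
  linarith

theorem Frame.norm_split (hF : Frame A m k e₁ e₂ l₁ l₂) (z : E) :
    ‖(inner ℂ e₁ z : ℂ)‖ ^ 2 + ‖(inner ℂ e₂ z : ℂ)‖ ^ 2 +
      ‖z - (inner ℂ e₁ z : ℂ) • e₁ - (inner ℂ e₂ z : ℂ) • e₂‖ ^ 2 = ‖z‖ ^ 2 := by
  set x : ℂ := inner ℂ e₁ z with hx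
  set y : ℂ := inner ℂ e₂ z with hy
  set w : E := z - x • e₁ - y • e₂ with hw
  have hz : z = w + x • e₁ + y • e₂ := by rw [hw]; abel
  have hw1 : inner ℂ e₁ w = (0 : ℂ) := by
    rw [hw, inner_sub_right, inner_sub_right, inner_smul_right, inner_smul_right, hF.self1,
      hF.ortho', ← hx]; ring
  have hw2 : inner ℂ e₂ w = (0 : ℂ) := by
    rw [hw, inner_sub_right, inner_sub_right, inner_smul_right, inner_smul_right, hF.self2,
      hF.ortho, ← hy]; ring
  have hw1' : inner ℂ w e₁ = (0 : ℂ) := by rw [← inner_conj_symm, hw1, map_zero]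
  have hw2' : inner ℂ w e₂ = (0 : ℂ) := by rw [← inner_conj_symm, hw2, map_zero]
  have hexp : inner ℂ z z = inner ℂ w w + ((‖x‖ ^ 2 : ℝ) : ℂ) + ((‖y‖ ^ 2 : ℝ) : ℂ) := by
    have e1 : ((‖x‖ ^ 2 : ℝ) : ℂ) = x * (starRingEnd ℂ) x := by
      rw [Complex.mul_conj, Complex.normSq_eq_norm_sq]
    have e2 : ((‖y‖ ^ 2 : ℝ) : ℂ) = y * (starRingEnd ℂ) y := by
      rw [Complex.mul_conj, Complex.normSq_eq_norm_sq]
    rw [hz]
    simp only [inner_add_left, inner_add_right, inner_smul_left, inner_smul_right, hw1, hw2, hw1',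
      hw2', hF.self1, hF.self2, hF.ortho, hF.ortho']
    rw [e1, e2]
    ring
  have h1 := congrArg Complex.re hexp
  rw [Complex.add_re, Complex.add_re, Complex.ofReal_re, Complex.ofReal_re, reInner_self,
    reInner_self] at h1
  linarith

/-- the coordinate `z₂` -/
noncomputable def co (e₂ : E) : E →L[ℂ] ℂ := innerSL ℂ e₂

/-- the extremal Herglotz field -/
noncomputable def hext (A : E →L[ℂ] E) (m k : ℝ) (e₁ e₂ : E) (l₁ l₂ : ℂ) (z : E) (t : ℝ) : E :=
  A z - (((a0 m k : ℝ) : ℂ) * Complex.exp ((t : ℂ) * (2 * l₂ - l₁ - ((2 * m - k : ℝ) : ℂ)))) •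
    ((co e₂ z) ^ 2 • e₁)

/-- the extremal flow before the linear part is applied -/
noncomputable def wext (m k : ℝ) (e₁ e₂ : E) (z : E) (t : ℝ) : E :=
  z + ((a0 m k / (2 * m - k) * (1 - Real.exp (-(2 * m - k) * t)) : ℝ) : ℂ) • ((co e₂ z) ^ 2 • e₁)

noncomputable def vext (A : E →L[ℂ] E) (m k : ℝ) (e₁ e₂ : E) (z : E) (t : ℝ) : E :=
  (NormedSpace.exp (((-t : ℝ) : ℂ) • A)) (wext m k e₁ e₂ z t)

noncomputable def fext (m k : ℝ) (e₁ e₂ : E) (z : E) : E :=
  z + ((a0 m k / (2 * m - k) : ℝ) : ℂ) • ((co e₂ z) ^ 2 • e₁)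

omit [CompleteSpace E] in
theorem quad_analytic (c : ℂ) (e₁ e₂ : E) (z : E) :
    AnalyticAt ℂ (fun z : E => c • ((co e₂ z) ^ 2 • e₁)) z := by
  have h1 : AnalyticAt ℂ (fun z : E => (co e₂ z) ^ 2) z := (ContinuousLinearMap.analyticAt _ _).pow 2
  exact (h1.smul analyticAt_const).const_smul

omit [CompleteSpace E] in
theorem quad_hasFDerivAt (c : ℂ) (e₁ e₂ : E) (z : E) :
    HasFDerivAt (fun z : E => c • ((co e₂ z) ^ 2 • e₁))
      ((2 * c * co e₂ z) • (co e₂).smulRight e₁) z := by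
  have h1 : HasFDerivAt (fun z : E => (co e₂ z) ^ 2) ((2 * co e₂ z) • co e₂) z := by
    have := (co e₂).hasFDerivAt (x := z)
    exact (this.pow 2).congr_fderiv (by ext w; simp)
  have h3 := (h1.smul_const e₁).const_smul c
  refine HasFDerivAt.congr_fderiv h3 ?_
  ext w
  simp only [FunLike.coe_smul, Pi.smul_apply, ContinuousLinearMap.smulRight_apply, smul_eq_mul,
    smul_smul]
  congr 1
  ring

theorem phase_norm (hF : Frame A m k e₁ e₂ l₁ l₂) (t : ℝ) :
    ‖Complex.exp ((t : ℂ) * (2 * l₂ - l₁ - ((2 * m - k : ℝ) : ℂ)))‖ = 1 := by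
  rw [Complex.norm_exp, Complex.re_ofReal_mul, Complex.sub_re, Complex.sub_re, Complex.ofReal_re,
    hF.re1]
  have : (2 * l₂).re = 2 * m := by
    rw [show (2 : ℂ) = ((2 : ℝ) : ℂ) by norm_num, Complex.re_ofReal_mul, hF.re2]
  rw [this]
  have : t * (2 * m - k - (2 * m - k)) = 0 := by ring
  rw [this, Real.exp_zero]

theorem hext_re_lower (hN : Num A m k) (hF : Frame A m k e₁ e₂ l₁ l₂) (z : E) (t : ℝ) :
    k * ‖(inner ℂ e₁ z : ℂ)‖ ^ 2 + m * ‖(inner ℂ e₂ z : ℂ)‖ ^ 2 +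
      m * ‖z - (inner ℂ e₁ z : ℂ) • e₁ - (inner ℂ e₂ z : ℂ) • e₂‖ ^ 2 -
      a0 m k * ‖(inner ℂ e₁ z : ℂ)‖ * ‖(inner ℂ e₂ z : ℂ)‖ ^ 2 ≤
      (inner ℂ z (hext A m k e₁ e₂ l₁ l₂ z t)).re := by
  have hm := hN.pos
  have hmk := hN.m_le_k hF.n1
  have ha := a0_pos hm (lt_of_lt_of_le hm hmk)
  have h1 := hF.split hN z
  rw [hext, inner_sub_right, Complex.sub_re]
  have h2 : (inner ℂ z ((((a0 m k : ℝ) : ℂ) *
      Complex.exp ((t : ℂ) * (2 * l₂ - l₁ - ((2 * m - k : ℝ) : ℂ)))) •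
    ((co e₂ z) ^ 2 • e₁))).re ≤ a0 m k * ‖(inner ℂ e₁ z : ℂ)‖ * ‖(inner ℂ e₂ z : ℂ)‖ ^ 2 := by
    refine (Complex.re_le_norm _).trans ?_
    rw [inner_smul_right, inner_smul_right, norm_mul, norm_mul, norm_mul, phase_norm hF,
      Complex.norm_real, Real.norm_eq_abs, abs_of_pos ha, norm_pow, ← inner_conj_symm,
      Complex.norm_conj]
    have : (co e₂ z) = inner ℂ e₂ z := rfl
    rw [this]
    apply le_of_eq
    ring
  linarith

theorem hext_isCara (hN : Num A m k) (hF : Frame A m k e₁ e₂ l₁ l₂) (t : ℝ) :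
    IsCara A (fun z => hext A m k e₁ e₂ l₁ l₂ z t) := by
  have hm := hN.pos
  have hmk := hN.m_le_k hF.n1
  have hk := lt_of_lt_of_le hm hmk
  constructor
  · intro z _
    exact (A.analyticAt z).sub (quad_analytic _ _ _ _)
  · simp [hext]
  · have h1 := (A.hasFDerivAt (x := (0 : E))).sub (quad_hasFDerivAt (((a0 m k : ℝ) : ℂ) *
      Complex.exp ((t : ℂ) * (2 * l₂ - l₁ - ((2 * m - k : ℝ) : ℂ)))) e₁ e₂ 0)
    rw [map_zero, mul_zero, zero_smul, sub_zero] at h1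
    exact h1.fderiv
  · intro z hz hz0
    refine lt_of_lt_of_le ?_ (hext_re_lower hN hF z t)
    have hs := hF.norm_split z
    have hz1 : ‖z‖ < 1 := by simpa using hz
    have hz2 : ‖z‖ ^ 2 < 1 := by nlinarith [norm_nonneg z]
    set x := ‖(inner ℂ e₁ z : ℂ)‖
    set y := ‖(inner ℂ e₂ z : ℂ)‖
    set w := ‖z - (inner ℂ e₁ z : ℂ) • e₁ - (inner ℂ e₂ z : ℂ) • e₂‖
    have hzn : 0 < ‖z‖ := norm_pos_iff.2 hz0
    by_cases hxy : x ≠ 0 ∨ y ≠ 0
    · have := a0_strict hm hk (x := x) (y := y) (norm_nonneg _) (by nlinarith [sq_nonneg w]) hxy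
      have : 0 ≤ m * w ^ 2 := by positivity
      linarith
    · push Not at hxy
      rw [hxy.1, hxy.2] at hs ⊢
      have : 0 < w ^ 2 := by nlinarith
      have : 0 < m * w ^ 2 := by positivity
      nlinarith

theorem hext_re_nonneg (hN : Num A m k) (hF : Frame A m k e₁ e₂ l₁ l₂) (t : ℝ) {z : E}
    (hz : ‖z‖ ≤ 1) : 0 ≤ (inner ℂ z (hext A m k e₁ e₂ l₁ l₂ z t)).re := by
  have hm := hN.pos
  have hmk := hN.m_le_k hF.n1
  have hk := lt_of_lt_of_le hm hmk
  refine le_trans ?_ (hext_re_lower hN hF z t)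
  have hs := hF.norm_split z
  have hz2 : ‖z‖ ^ 2 ≤ 1 := by nlinarith [norm_nonneg z]
  set x := ‖(inner ℂ e₁ z : ℂ)‖
  set y := ‖(inner ℂ e₂ z : ℂ)‖
  set w := ‖z - (inner ℂ e₁ z : ℂ) • e₁ - (inner ℂ e₂ z : ℂ) • e₂‖
  have := a0_nonneg hm hk (x := x) (y := y) (norm_nonneg _) (by nlinarith [sq_nonneg w])
  have : 0 ≤ m * w ^ 2 := by positivity
  linarith

theorem co_wext (hF : Frame A m k e₁ e₂ l₁ l₂) (z : E) (t : ℝ) :
    inner ℂ e₂ (wext m k e₁ e₂ z t) = (inner ℂ e₂ z : ℂ) := by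
  rw [wext, inner_add_right, inner_smul_right, inner_smul_right, hF.ortho]
  ring

theorem co_vext (hF : Frame A m k e₁ e₂ l₁ l₂) (z : E) (t : ℝ) :
    co e₂ (vext A m k e₁ e₂ z t) = Complex.exp (-((t : ℂ) * l₂)) * co e₂ z := by
  have h1 : co e₂ (vext A m k e₁ e₂ z t) = inner ℂ e₂ (vext A m k e₁ e₂ z t) := rfl
  rw [h1, vext, ← dual_inner A e₂ (wext m k e₁ e₂ z t) (-t), dual, exp_eigen _ hF.adj2,
    inner_smul_left, co_wext hF, ← Complex.exp_conj, map_mul, Complex.conj_conj,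
    Complex.conj_ofReal]
  congr 2
  push_cast
  ring

omit [CompleteSpace E] in
theorem wext_hasDerivAt (hk : k < 2 * m) (z : E) (t : ℝ) :
    HasDerivAt (wext m k e₁ e₂ z)
      (((a0 m k * Real.exp (-(2 * m - k) * t) : ℝ) : ℂ) • ((co e₂ z) ^ 2 • e₁)) t := by
  have hδ : 2 * m - k ≠ 0 := by linarith
  have h1 : HasDerivAt (fun t : ℝ => a0 m k / (2 * m - k) * (1 - Real.exp (-(2 * m - k) * t)))
      (a0 m k * Real.exp (-(2 * m - k) * t)) t := by
    have h2 : HasDerivAt (fun t : ℝ => Real.exp (-(2 * m - k) * t))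
        (Real.exp (-(2 * m - k) * t) * (-(2 * m - k))) t := by
      have := ((hasDerivAt_id t).const_mul (-(2 * m - k))).exp
      simpa using this
    have h3 := (h2.const_sub 1).const_mul (a0 m k / (2 * m - k))
    have e : a0 m k / (2 * m - k) * -(Real.exp (-(2 * m - k) * t) * -(2 * m - k)) =
        a0 m k * Real.exp (-(2 * m - k) * t) * ((2 * m - k) / (2 * m - k)) := by ring
    rw [e, div_self hδ, mul_one] at h3
    exact h3
  have h4 := (h1.ofReal_comp.smul_const ((co e₂ z) ^ 2 • e₁)).const_add z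
  exact h4

theorem vext_hasDerivAt (hk : k < 2 * m) (hF : Frame A m k e₁ e₂ l₁ l₂) (z : E) (t : ℝ) :
    HasDerivAt (vext A m k e₁ e₂ z)
      (-(hext A m k e₁ e₂ l₁ l₂ (vext A m k e₁ e₂ z t) t)) t := by
  have h1 := exp_hasDerivAt' A (-t)
  have h2 : HasDerivAt (fun s : ℝ => NormedSpace.exp (((-s : ℝ) : ℂ) • A))
      (-(A * NormedSpace.exp (((-t : ℝ) : ℂ) • A))) t := by
    have h3 := h1.scomp t (hasDerivAt_neg t)
    rw [neg_one_smul] at h3
    exact h3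
  have h3 : HasDerivAt (vext A m k e₁ e₂ z)
      ((-(A * NormedSpace.exp (((-t : ℝ) : ℂ) • A))) (wext m k e₁ e₂ z t) +
        (NormedSpace.exp (((-t : ℝ) : ℂ) • A)) (((a0 m k * Real.exp (-(2 * m - k) * t) : ℝ) : ℂ) •
          ((co e₂ z) ^ 2 • e₁))) t := by
    have h4 := ((isBoundedBilinearMap_apply (𝕜 := ℂ) (E := E) (F := E)).hasFDerivAt
      (NormedSpace.exp (((-t : ℝ) : ℂ) • A), wext m k e₁ e₂ z t)).restrictScalars ℝ
    have h5 := h4.comp_hasDerivAt t (h2.prodMk (wext_hasDerivAt hk z t))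
    rw [add_comm]
    exact h5
  have h4 : (-(A * NormedSpace.exp (((-t : ℝ) : ℂ) • A))) (wext m k e₁ e₂ z t) +
        (NormedSpace.exp (((-t : ℝ) : ℂ) • A)) (((a0 m k * Real.exp (-(2 * m - k) * t) : ℝ) : ℂ) •
          ((co e₂ z) ^ 2 • e₁)) = -(hext A m k e₁ e₂ l₁ l₂ (vext A m k e₁ e₂ z t) t) := by
    have e0 : (-(A * NormedSpace.exp (((-t : ℝ) : ℂ) • A))) (wext m k e₁ e₂ z t) =
        -(A (vext A m k e₁ e₂ z t)) := rfl
    have e1 : ((Real.exp (-(2 * m - k) * t) : ℝ) : ℂ) =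
        Complex.exp (((-(2 * m - k) * t : ℝ) : ℂ)) := Complex.ofReal_exp _
    rw [e0, hext, co_vext hF, map_smul, map_smul, exp_eigen _ hF.eig1, Complex.ofReal_mul, e1,
      mul_pow, ← Complex.exp_nat_mul]
    set p : ℂ := Complex.exp (((-(2 * m - k) * t : ℝ) : ℂ)) with hp
    set x : E := A (vext A m k e₁ e₂ z t)
    rw [neg_sub, sub_eq_neg_add, smul_smul, smul_smul, smul_smul]
    congr 1
    congr 1
    have e2 : Complex.exp (((-(2 * m - k) * t : ℝ) : ℂ)) * Complex.exp (((-t : ℝ) : ℂ) * l₁) =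
        Complex.exp ((t : ℂ) * (2 * l₂ - l₁ - ((2 * m - k : ℝ) : ℂ))) *
          Complex.exp (((2 : ℕ) : ℂ) * -((t : ℂ) * l₂)) := by
      rw [← Complex.exp_add, ← Complex.exp_add]
      congr 1
      push_cast
      ring
    linear_combination (((a0 m k : ℝ) : ℂ) * (co e₂ z) ^ 2) * e2
  rw [h4] at h3
  exact h3

theorem vext_continuous (hk : k < 2 * m) (hF : Frame A m k e₁ e₂ l₁ l₂) (z : E) :
    Continuous (vext A m k e₁ e₂ z) :=
  continuous_iff_continuousAt.2 fun t => (vext_hasDerivAt hk hF z t).continuousAt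

theorem vext_zero (z : E) : vext A m k e₁ e₂ z 0 = z := by
  simp [vext, wext]

theorem vext_mem (hN : Num A m k) (hk : k < 2 * m) (hF : Frame A m k e₁ e₂ l₁ l₂) {z : E}
    (hz : z ∈ ball (0 : E) 1) {t : ℝ} (ht : 0 ≤ t) : vext A m k e₁ e₂ z t ∈ ball (0 : E) 1 := by
  rw [mem_ball_zero_iff] at hz ⊢
  by_contra hcon
  push Not at hcon
  set V := vext A m k e₁ e₂ z with hV
  have hc : Continuous (fun s => ‖V s‖) := (vext_continuous hk hF z).norm
  set S : Set ℝ := {s | 0 ≤ s ∧ 1 ≤ ‖V s‖} with hS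
  have hSc : IsClosed S := (isClosed_le continuous_const continuous_id).inter
    (isClosed_le continuous_const hc)
  have hSne : S.Nonempty := ⟨t, ht, hcon⟩
  have hSb : BddBelow S := ⟨0, fun s hs => hs.1⟩
  have hmem : sInf S ∈ S := hSc.csInf_mem hSne hSb
  set s0 := sInf S with hs0
  have hlt : ∀ s, 0 ≤ s → s < s0 → ‖V s‖ < 1 := by
    intro s h1 h2
    by_contra h3
    push Not at h3
    exact absurd (csInf_le hSb (show s ∈ S from ⟨h1, h3⟩)) (not_le.2 h2)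
  have hanti : AntitoneOn (fun s => ‖V s‖ ^ 2) (Icc 0 s0) := by
    apply antitoneOn_of_deriv_nonpos (convex_Icc _ _) (hc.pow 2).continuousOn
    · intro s _
      exact (hasDerivAt_normSq (vext_hasDerivAt hk hF z s)).differentiableAt.differentiableWithinAt
    · intro s hs
      rw [interior_Icc] at hs
      have hd : HasDerivAt ((fun s => ‖V s‖) ^ 2)
          (2 * (inner ℂ (V s) (-(hext A m k e₁ e₂ l₁ l₂ (V s) s))).re) s :=
        hasDerivAt_normSq (vext_hasDerivAt hk hF z s)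
      rw [hd.deriv, inner_neg_right, Complex.neg_re]
      have := hext_re_nonneg hN hF s (hlt s hs.1.le hs.2).le
      linarith
  have h1 := hanti (left_mem_Icc.2 hmem.1) (right_mem_Icc.2 hmem.1) hmem.1
  simp only [hV, vext_zero] at h1
  have h2 := hmem.2
  rw [hV] at h2
  nlinarith [norm_nonneg z]

theorem vext_ac (hk : k < 2 * m) (hF : Frame A m k e₁ e₂ l₁ l₂) (z : E) (T : ℝ) :
    AbsolutelyContinuousOnInterval (vext A m k e₁ e₂ z) 0 T := by
  apply ContDiffOn.absolutelyContinuousOnInterval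
  apply ContDiff.contDiffOn
  rw [contDiff_one_iff_deriv]
  refine ⟨fun t => (vext_hasDerivAt hk hF z t).differentiableAt, ?_⟩
  have h1 : deriv (vext A m k e₁ e₂ z) =
      fun t => -(hext A m k e₁ e₂ l₁ l₂ (vext A m k e₁ e₂ z t) t) := by
    funext t; exact (vext_hasDerivAt hk hF z t).deriv
  rw [h1]
  have h2 := vext_continuous hk hF z
  unfold hext
  fun_prop

theorem hext_isHerglotz (hN : Num A m k) (hF : Frame A m k e₁ e₂ l₁ l₂) :
    IsHerglotz A (hext A m k e₁ e₂ l₁ l₂) := by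
  refine ⟨Eventually.of_forall fun t _ => hext_isCara hN hF t, fun z _ => ?_⟩
  have : Continuous (hext A m k e₁ e₂ l₁ l₂ z) := by
    unfold hext
    fun_prop
  exact this.aestronglyMeasurable

theorem vext_isLoewner (hN : Num A m k) (hk : k < 2 * m) (hF : Frame A m k e₁ e₂ l₁ l₂) :
    IsLoewner (hext A m k e₁ e₂ l₁ l₂) (vext A m k e₁ e₂) :=
  ⟨fun _ hz _ ht => vext_mem hN hk hF hz ht, fun z _ => vext_zero z,
    fun z _ T _ => vext_ac hk hF z T,
    fun z _ => Eventually.of_forall fun t _ => vext_hasDerivAt hk hF z t⟩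

theorem fext_paramRep (hN : Num A m k) (hk : k < 2 * m) (hF : Frame A m k e₁ e₂ l₁ l₂) :
    ParamRep A (fext m k e₁ e₂) := by
  have hm := hN.pos
  have hmk := hN.m_le_k hF.n1
  have ha := a0_pos hm (lt_of_lt_of_le hm hmk)
  refine ⟨fun z _ => analyticAt_id.add (quad_analytic _ _ _ _), by simp [fext], ?_,
    hext A m k e₁ e₂ l₁ l₂, vext A m k e₁ e₂, hext_isHerglotz hN hF, vext_isLoewner hN hk hF, ?_⟩
  · have h1 := (hasFDerivAt_id (𝕜 := ℂ) (0 : E)).add
      (quad_hasFDerivAt ((a0 m k / (2 * m - k) : ℝ) : ℂ) e₁ e₂ 0)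
    rw [map_zero, mul_zero, zero_smul, add_zero] at h1
    exact h1.fderiv
  · apply TendstoUniformlyOn.tendstoLocallyUniformlyOn
    rw [Metric.tendstoUniformlyOn_iff]
    intro ε hε
    have hδ : 0 < 2 * m - k := by linarith
    have hlim : Tendsto (fun t : ℝ => a0 m k / (2 * m - k) * Real.exp (-(2 * m - k) * t)) atTop
        (𝓝 (a0 m k / (2 * m - k) * 0)) := by
      apply Tendsto.const_mul
      apply Real.tendsto_exp_atBot.comp
      exact tendsto_id.const_mul_atTop_of_neg (by linarith)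
    rw [mul_zero] at hlim
    filter_upwards [hlim.eventually (gt_mem_nhds hε)] with t ht z hz
    have h1 : (NormedSpace.exp ((t : ℂ) • A)) (vext A m k e₁ e₂ z t) = wext m k e₁ e₂ z t :=
      exp_cancel A t _
    rw [h1, dist_eq_norm]
    have h2 : fext m k e₁ e₂ z - wext m k e₁ e₂ z t =
        ((a0 m k / (2 * m - k) * Real.exp (-(2 * m - k) * t) : ℝ) : ℂ) •
          ((co e₂ z) ^ 2 • e₁) := by
      rw [fext, wext, add_sub_add_left_eq_sub, ← sub_smul]
      congr 1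
      push_cast
      ring
    rw [h2, norm_smul, norm_smul, norm_pow, hF.n1, Complex.norm_real, Real.norm_eq_abs,
      abs_of_nonneg (by positivity)]
    have h3 : ‖co e₂ z‖ ≤ 1 := by
      have h4 : ‖(inner ℂ e₂ z : ℂ)‖ ≤ ‖e₂‖ * ‖z‖ := norm_inner_le_norm _ _
      rw [hF.n2, one_mul] at h4
      have h5 : ‖z‖ < 1 := by simpa using hz
      exact h4.trans h5.le
    have h4 : ‖co e₂ z‖ ^ 2 * 1 ≤ 1 := by nlinarith [norm_nonneg (co e₂ z)]
    have h5 : 0 ≤ a0 m k / (2 * m - k) * Real.exp (-(2 * m - k) * t) := by positivity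
    nlinarith

theorem P2_fext (hF : Frame A m k e₁ e₂ l₁ l₂) :
    P2 (fext m k e₁ e₂) e₂ = ((a0 m k / (2 * m - k) : ℝ) : ℂ) • e₁ := by
  set K : ℂ := ((a0 m k / (2 * m - k) : ℝ) : ℂ) with hK
  have h1 : ∀ z : E, HasFDerivAt (fext m k e₁ e₂)
      (ContinuousLinearMap.id ℂ E + (2 * K * co e₂ z) • (co e₂).smulRight e₁) z := by
    intro z
    exact (hasFDerivAt_id (𝕜 := ℂ) z).add (quad_hasFDerivAt K e₁ e₂ z)
  have h2 : fderiv ℂ (fext m k e₁ e₂) = fun z => ContinuousLinearMap.id ℂ E +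
      (2 * K * co e₂ z) • (co e₂).smulRight e₁ := by
    funext z; exact (h1 z).fderiv
  have h3 : HasFDerivAt (fun z => ContinuousLinearMap.id ℂ E +
      (2 * K * co e₂ z) • (co e₂).smulRight e₁)
      (((2 * K) • co e₂).smulRight ((co e₂).smulRight e₁)) 0 := by
    have h4 : HasFDerivAt (fun z : E => 2 * K * co e₂ z) ((2 * K) • co e₂) 0 :=
      ((co e₂).hasFDerivAt).const_mul (2 * K)
    exact (h4.smul_const ((co e₂).smulRight e₁)).const_add _
  have h5 : co e₂ e₂ = 1 := hF.self2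
  rw [P2, iteratedFDeriv_two_apply, h2, h3.fderiv]
  simp only [ContinuousLinearMap.smulRight_apply, FunLike.coe_smul, Pi.smul_apply, h5]
  rw [smul_eq_mul, mul_one, one_smul, smul_smul]
  congr 1
  ring

theorem norm_P2_fext (hN : Num A m k) (hk : k < 2 * m) (hF : Frame A m k e₁ e₂ l₁ l₂) :
    ‖P2 (fext m k e₁ e₂) e₂‖ = a0 m k / (2 * m - k) := by
  have hm := hN.pos
  have hmk := hN.m_le_k hF.n1
  have ha := a0_pos hm (lt_of_lt_of_le hm hmk)
  have hδ : 0 < 2 * m - k := by linarith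
  rw [P2_fext hF, norm_smul, hF.n1, mul_one, Complex.norm_real, Real.norm_eq_abs,
    abs_of_pos (by positivity)]

end Pool.Agent.helper37.PR
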