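import Mathlib

/-!
MP_b9b9c0_an: definitions.  `⟨x, y⟩` of the problem is `inner ℂ y x`.
-/

set_option autoImplicit false

namespace Pool.Agent.helper37.PR

open Metric MeasureTheory Set Filter Topology

variable {E : Type*} [NormedAddCommGroup E] [InnerProductSpace ℂ E]

/-- the class `𝒩_A` -/
structure IsCara (A : E →L[ℂ] E) (h : E → E) : Prop where
  an : AnalyticOnNhd ℂ h (ball 0 1)
  zero : h 0 = 0
  deriv : fderiv ℂ h 0 = A
  pos : ∀ z ∈ ball (0 : E) 1, z ≠ 0 → 0 < (inner ℂ z (h z)).re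

/-- Herglotz vector fields with linear part `A` -/
structure IsHerglotz (A : E →L[ℂ] E) (h : E → ℝ → E) : Prop where
  cara : ∀ᵐ t : ℝ, 0 ≤ t → IsCara A (fun z => h z t)
  meas : ∀ z ∈ ball (0 : E) 1, AEStronglyMeasurable (h z) (volume.restrict (Ici (0 : ℝ)))

/-- `v` solves `∂v/∂t = -h(v, t)` (almost every `t ≥ 0`), `v(z, 0) = z`, and is locally absolutely
continuous in `t` -/
structure IsLoewner (h : E → ℝ → E) (v : E → ℝ → E) : Prop where
  mem : ∀ z ∈ ball (0 : E) 1, ∀ t : ℝ, 0 ≤ t → v z t ∈ ball (0 : E) 1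
  init : ∀ z ∈ ball (0 : E) 1, v z 0 = z
  ac : ∀ z ∈ ball (0 : E) 1, ∀ T : ℝ, 0 ≤ T → AbsolutelyContinuousOnInterval (v z) 0 T
  ode : ∀ z ∈ ball (0 : E) 1, ∀ᵐ t : ℝ, 0 ≤ t → HasDerivAt (v z) (-(h (v z t) t)) t

/-- the family `S_A^0` of normalized maps with `A`-parametric representation -/
def ParamRep (A : E →L[ℂ] E) (f : E → E) : Prop :=
  AnalyticOnNhd ℂ f (ball 0 1) ∧ f 0 = 0 ∧ fderiv ℂ f 0 = ContinuousLinearMap.id ℂ E ∧
  ∃ h v : E → ℝ → E, IsHerglotz A h ∧ IsLoewner h v ∧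
    TendstoLocallyUniformlyOn (fun (t : ℝ) z => (NormedSpace.exp ((t : ℂ) • A)) (v z t)) f atTop
      (ball 0 1)

/-- `P_2(z) = (1/2!) D²f(0)(z, z)` -/
noncomputable def P2 (f : E → E) (z : E) : E :=
  (1 / 2 : ℂ) • iteratedFDeriv ℂ 2 f 0 (fun _ => z)

end Pool.Agent.helper37.PR
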