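import Pool.Agent.helper37.PR.Flow

/-! The upper bound of the second order coefficient. -/

set_option autoImplicit false

namespace Pool.Agent.helper37.PR

open Metric MeasureTheory Set Filter Topology Asymptotics

variable {E : Type*} [NormedAddCommGroup E] [InnerProductSpace ℂ E] [CompleteSpace E]
variable {A : E →L[ℂ] E} {m k : ℝ} {h v : E → ℝ → E}

/-- the constant attached to the weight `P` -/
noncomputable def KP (m k P : ℝ) : ℝ := (P * m + (1 - P) * k) / (P * √(1 - P) * (2 * m - k))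

/-- the pointwise inequality -/
theorem pointwise {g : E → E} (hN : Num A m k) (hk : k < 2 * m) (hc : IsCara A g) {P : ℝ}
    (hP0 : 0 < P) (hP1 : P < 1) {x U : E} (hU : 0 < ‖U‖) :
    ‖(inner ℂ U (P2 g x) : ℂ)‖ ≤ KP m k P * (2 * (inner ℂ x (A x)).re * ‖U‖ -
      ‖x‖ ^ 2 * ((inner ℂ U (A U)).re / ‖U‖)) := by
  by_cases hx : x = 0
  · have h0 : P2 g (0 : E) = 0 := by
      have := P2_smul g 0 (0 : E)
      rw [zero_smul] at this
      rw [this]; simp
    rw [hx, h0]; simp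
  have hxn : 0 < ‖x‖ := norm_pos_iff.2 hx
  have hm := hN.pos
  set Q : ℝ := √(1 - P) with hQ
  have hQ0 : 0 < Q := Real.sqrt_pos.2 (by linarith)
  have hQ2 : Q ^ 2 = 1 - P := Real.sq_sqrt (by linarith)
  set R : ℝ := √P with hR
  have hR0 : 0 < R := Real.sqrt_pos.2 hP0
  have hR2 : R ^ 2 = P := Real.sq_sqrt hP0.le
  have h1 := key hc (b := ((R / ‖x‖ : ℝ) : ℂ) • x) (c := ((Q / ‖U‖ : ℝ) : ℂ) • U) (by
    rw [norm_smul, norm_smul, Complex.norm_real, Complex.norm_real, Real.norm_eq_abs,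
      Real.norm_eq_abs, abs_of_pos (by positivity), abs_of_pos (by positivity),
      div_mul_cancel₀ _ hxn.ne', div_mul_cancel₀ _ hU.ne', hR2, hQ2]
    linarith)
  rw [P2_smul, inner_smul_left, inner_smul_right, norm_mul, norm_mul, Complex.norm_conj, norm_pow,
    Complex.norm_real, Complex.norm_real, Real.norm_eq_abs,
    Real.norm_eq_abs, abs_of_pos (by positivity), abs_of_pos (by positivity)] at h1
  have hsm : ∀ (s : ℝ) (y : E), (inner ℂ ((s : ℂ) • y) (A ((s : ℂ) • y))).re =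
      s ^ 2 * (inner ℂ y (A y)).re := by
    intro s y
    rw [map_smul, inner_smul_left, inner_smul_right, Complex.conj_ofReal, Complex.re_ofReal_mul,
      Complex.re_ofReal_mul]
    ring
  rw [hsm, hsm] at h1
  set a : ℝ := (inner ℂ x (A x)).re with ha
  set b : ℝ := (inner ℂ U (A U)).re with hb
  set W : ℝ := ‖(inner ℂ U (P2 g x) : ℂ)‖ with hW
  have ha1 : m * ‖x‖ ^ 2 ≤ a := hN.lower x
  have hb1 : b ≤ k * ‖U‖ ^ 2 := hN.upper U
  have hb0 : m * ‖U‖ ^ 2 ≤ b := hN.lower U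
  have e1 : (Q / ‖U‖) * ((R / ‖x‖) ^ 2 * W) = (P * Q) * W / (‖x‖ ^ 2 * ‖U‖) := by
    rw [← hR2]; field_simp
  have e2 : (R / ‖x‖) ^ 2 * a + (Q / ‖U‖) ^ 2 * b =
      (P * a * ‖U‖ ^ 2 + (1 - P) * b * ‖x‖ ^ 2) / (‖x‖ ^ 2 * ‖U‖ ^ 2) := by
    rw [← hQ2, ← hR2]; field_simp
  rw [e1, e2, div_le_div_iff₀ (by positivity) (by positivity)] at h1
  have h2 : P * Q * W * ‖U‖ ≤ P * a * ‖U‖ ^ 2 + (1 - P) * b * ‖x‖ ^ 2 := by
    have h3 : (P * Q * W * ‖U‖) * (‖x‖ ^ 2 * ‖U‖) ≤
        (P * a * ‖U‖ ^ 2 + (1 - P) * b * ‖x‖ ^ 2) * (‖x‖ ^ 2 * ‖U‖) := by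
      nlinarith [h1]
    exact le_of_mul_le_mul_right h3 (by positivity)
  have h2mk : 0 < 2 * m - k := by linarith
  -- the elementary inequality
  have h4 : (P * a * ‖U‖ ^ 2 + (1 - P) * b * ‖x‖ ^ 2) * (2 * m - k) ≤
      (P * m + (1 - P) * k) * (2 * a * ‖U‖ ^ 2 - ‖x‖ ^ 2 * b) := by
    have h5 : (P * m + (1 - P) * k) * (2 * a * ‖U‖ ^ 2 - ‖x‖ ^ 2 * b) -
        (P * a * ‖U‖ ^ 2 + (1 - P) * b * ‖x‖ ^ 2) * (2 * m - k) =
        (P + 2 * (1 - P)) * (k * a * ‖U‖ ^ 2 - m * b * ‖x‖ ^ 2) := by ring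
    have h6 : m * b * ‖x‖ ^ 2 ≤ k * a * ‖U‖ ^ 2 := by
      have hkpos : 0 < k := by
        have : m * ‖U‖ ^ 2 ≤ k * ‖U‖ ^ 2 := hb0.trans hb1
        have := le_of_mul_le_mul_right this (by positivity)
        linarith
      calc m * b * ‖x‖ ^ 2 ≤ m * (k * ‖U‖ ^ 2) * ‖x‖ ^ 2 := by gcongr
        _ = k * (m * ‖x‖ ^ 2) * ‖U‖ ^ 2 := by ring
        _ ≤ k * a * ‖U‖ ^ 2 := by gcongr
    have h7 : 0 ≤ (P + 2 * (1 - P)) * (k * a * ‖U‖ ^ 2 - m * b * ‖x‖ ^ 2) :=
      mul_nonneg (by linarith) (by linarith)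
    linarith
  have h8 : KP m k P * (2 * a * ‖U‖ - ‖x‖ ^ 2 * (b / ‖U‖)) =
      (P * m + (1 - P) * k) * (2 * a * ‖U‖ ^ 2 - ‖x‖ ^ 2 * b) /
        (P * Q * (2 * m - k) * ‖U‖) := by
    rw [KP, ← hQ]
    field_simp
  rw [h8, le_div_iff₀ (by positivity)]
  calc W * (P * Q * (2 * m - k) * ‖U‖) = (P * Q * W * ‖U‖) * (2 * m - k) := by ring
    _ ≤ (P * a * ‖U‖ ^ 2 + (1 - P) * b * ‖x‖ ^ 2) * (2 * m - k) := by gcongr
    _ ≤ _ := h4

theorem KP_nonneg (hm : 0 < m) (hk0 : 0 ≤ k) (hk : k < 2 * m) {P : ℝ}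
    (hP0 : 0 < P) (hP1 : P < 1) : 0 ≤ KP m k P := by
  have : 0 < 2 * m - k := by linarith
  have : 0 < 1 - P := by linarith
  rw [KP]
  positivity

/-- growth of `Re ⟨f(re), u⟩` -/
theorem upper_flow (hN : Num A m k) (hk : k < 2 * m) {P : ℝ} (hP0 : 0 < P) (hP1 : P < 1)
    (hh : IsHerglotz A h) (hv : IsLoewner h v) {e u : E} (he : ‖e‖ = 1) (hu : ‖u‖ = 1)
    {r : ℝ} (hr0 : 0 < r) (hr1 : r ≤ 1 / 10) {T : ℝ} (hT : 0 ≤ T) :
    (inner ℂ u ((NormedSpace.exp ((T : ℂ) • A)) (v ((r : ℂ) • e) T))).re ≤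
      r * (inner ℂ u e).re + KP m k P * r ^ 2 +
        ((768 + 392 * KP m k P) * ‖A‖ / (27 / 11 * m - k)) * r ^ 3 := by
  have hm := hN.pos
  have hmk := hN.m_le_k he
  have hk0 : 0 < k := by linarith
  have hKP := KP_nonneg hm hk0.le hk hP0 hP1
  have hA := norm_nonneg A
  set K := KP m k P with hK
  set z : E := (r : ℂ) • e with hz
  have hzn : ‖z‖ = r := by
    rw [hz, norm_smul, he, mul_one, Complex.norm_real, Real.norm_eq_abs, abs_of_pos hr0]
  have hzb : z ∈ ball (0 : E) 1 := by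
    rw [mem_ball_zero_iff, hzn]; linarith
  set μ : ℝ := 9 / 11 * m with hμ
  have hμ1 : μ ≤ m * (1 - ‖z‖) / (1 + ‖z‖) := by
    rw [hzn, hμ, le_div_iff₀ (by linarith)]
    nlinarith
  set C : ℝ := (768 + 392 * K) * ‖A‖ with hC
  have hC0 : 0 ≤ C := by positivity
  set δ : ℝ := 27 / 11 * m - k with hδ
  have hδ0 : 0 < δ := by linarith
  set V : ℝ → E := v z with hV
  set U : ℝ → E := dual A u with hU
  have hUpos : ∀ t, 0 ≤ t → 0 < ‖U t‖ := by
    intro t ht
    have := dual_lower hN u ht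
    rw [hu] at this
    linarith
  have hacV := hv.ac z hzb T hT
  have hacU := dual_ac A u T
  have hacφ := ac_reInner hacU hacV
  have hacΨ := ((ac_normSq hacV).mul (ac_norm hacU)).const_mul K
  have hacG := (ac_exp (-δ) T).const_mul (C * r ^ 3 / δ)
  have hmain := ac_le_zero hT ((hacφ.add hacΨ).add hacG)
    (g' := fun t => ((inner ℂ (U t) (-(h (V t) t))).re +
        (inner ℂ (ContinuousLinearMap.adjoint A (U t)) (V t)).re) +
      K * (2 * (inner ℂ (V t) (-(h (V t) t))).re * ‖U t‖ +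
        ‖V t‖ ^ 2 * ((inner ℂ (U t) (A (U t))).re / ‖U t‖)) +
      (C * r ^ 3 / δ) * (Real.exp (-δ * t) * (-δ))) (by
      filter_upwards [hh.cara, hv.ode z hzb] with t h1 h2 ht _
      have hc := h1 ht
      have hd := h2 ht
      refine ⟨?_, ?_⟩
      · have e1 : HasDerivAt (fun t : ℝ => Real.exp (-δ * t)) (Real.exp (-δ * t) * (-δ)) t := by
          have := ((hasDerivAt_id t).const_mul (-δ)).exp
          simpa using this
        exact ((hasDerivAt_reInner (dual_hasDerivAt A u t) hd).add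
          (((hasDerivAt_normSq hd).mul (dual_norm_hasDerivAt A (hUpos t ht))).const_mul K)).add
          (e1.const_mul _)
      · have hVr : ‖V t‖ ≤ r := by
          have := flow_le hh hv hzb ht
          rwa [hzn] at this
        have hVd : ‖V t‖ ≤ r * Real.exp (-(μ * t)) := by
          have := flow_decay hN hh hv hzb hμ1 ht
          rwa [hzn] at this
        have hUd : ‖U t‖ ≤ Real.exp (k * t) := by
          have := dual_upper hN u ht
          rwa [hu, one_mul] at this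
        have hUp := hUpos t ht
        have hR3 := remainder3 hc (v := V t) (by linarith)
        have hR2 := remainder2 hc (v := V t) (by linarith)
        have hpw := pointwise hN hk hc hP0 hP1 (x := V t) hUp
        rw [← hK] at hpw
        -- first term
        have e1 : (inner ℂ (U t) (-(h (V t) t))).re +
            (inner ℂ (ContinuousLinearMap.adjoint A (U t)) (V t)).re =
            -(inner ℂ (U t) (h (V t) t - A (V t) - P2 (fun z => h z t) (V t))).re -
              (inner ℂ (U t) (P2 (fun z => h z t) (V t))).re := by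
          rw [ContinuousLinearMap.adjoint_inner_left, inner_neg_right, inner_sub_right,
            inner_sub_right]
          simp only [Complex.neg_re, Complex.sub_re]
          ring
        have e2 : -(inner ℂ (U t) (h (V t) t - A (V t) - P2 (fun z => h z t) (V t))).re ≤
            ‖U t‖ * (768 * ‖A‖ * ‖V t‖ ^ 3) := by
          have := norm_inner_le_norm (𝕜 := ℂ) (U t) (h (V t) t - A (V t) - P2 (fun z => h z t) (V t))
          have h3 := Complex.abs_re_le_norm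
            (inner ℂ (U t) (h (V t) t - A (V t) - P2 (fun z => h z t) (V t)) : ℂ)
          have h4 := neg_abs_le
            (inner ℂ (U t) (h (V t) t - A (V t) - P2 (fun z => h z t) (V t)) : ℂ).re
          have h5 : ‖U t‖ * ‖h (V t) t - A (V t) - P2 (fun z => h z t) (V t)‖ ≤
            ‖U t‖ * (768 * ‖A‖ * ‖V t‖ ^ 3) := by gcongr
          linarith
        have e3 : -(inner ℂ (U t) (P2 (fun z => h z t) (V t))).re ≤
            ‖(inner ℂ (U t) (P2 (fun z => h z t) (V t)) : ℂ)‖ := by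
          have h3 := Complex.abs_re_le_norm (inner ℂ (U t) (P2 (fun z => h z t) (V t)) : ℂ)
          have h4 := neg_abs_le (inner ℂ (U t) (P2 (fun z => h z t) (V t)) : ℂ).re
          linarith
        have e4 : 2 * (inner ℂ (V t) (-(h (V t) t))).re * ‖U t‖ ≤
            -(2 * (inner ℂ (V t) (A (V t))).re * ‖U t‖) + 392 * ‖A‖ * ‖V t‖ ^ 3 * ‖U t‖ := by
          have h3 : (inner ℂ (V t) (-(h (V t) t))).re = -(inner ℂ (V t) (A (V t))).re -
              (inner ℂ (V t) (h (V t) t - A (V t))).re := by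
            rw [inner_neg_right, inner_sub_right, Complex.neg_re, Complex.sub_re]; ring
          have h4 : -(inner ℂ (V t) (h (V t) t - A (V t))).re ≤ ‖V t‖ * (196 * ‖A‖ * ‖V t‖ ^ 2) := by
            have := norm_inner_le_norm (𝕜 := ℂ) (V t) (h (V t) t - A (V t))
            have h3 := Complex.abs_re_le_norm (inner ℂ (V t) (h (V t) t - A (V t)) : ℂ)
            have h4 := neg_abs_le (inner ℂ (V t) (h (V t) t - A (V t)) : ℂ).re
            have h5 : ‖V t‖ * ‖h (V t) t - A (V t)‖ ≤ ‖V t‖ * (196 * ‖A‖ * ‖V t‖ ^ 2) := by gcongr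
            linarith
          rw [h3]
          nlinarith
        have e5 : ‖V t‖ ^ 3 * ‖U t‖ ≤ r ^ 3 * Real.exp (-δ * t) := by
          calc ‖V t‖ ^ 3 * ‖U t‖ ≤ (r * Real.exp (-(μ * t))) ^ 3 * Real.exp (k * t) := by gcongr
            _ = r ^ 3 * Real.exp (-δ * t) := by
              rw [mul_pow, ← Real.exp_nat_mul, mul_assoc, ← Real.exp_add]
              congr 2
              rw [hδ, hμ]; push_cast; ring
        have e6 : C * (‖V t‖ ^ 3 * ‖U t‖) ≤ C * (r ^ 3 * Real.exp (-δ * t)) := by gcongr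
        have e7 : (C * r ^ 3 / δ) * (Real.exp (-δ * t) * (-δ)) = -(C * (r ^ 3 * Real.exp (-δ * t))) := by
          field_simp
        have e8 := mul_le_mul_of_nonneg_left e4 hKP
        rw [e7, e1]
        have e9 : C * (‖V t‖ ^ 3 * ‖U t‖) = ‖U t‖ * (768 * ‖A‖ * ‖V t‖ ^ 3) +
            K * (392 * ‖A‖ * ‖V t‖ ^ 3 * ‖U t‖) := by rw [hC]; ring
        nlinarith)
  simp only [Pi.add_apply, Pi.mul_apply, dual_zero, hv.init z hzb, mul_zero, Real.exp_zero,
    mul_one, hzn, hu] at hmain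
  rw [dual_inner] at hmain
  have h1 : (inner ℂ u z).re = r * (inner ℂ u e).re := by
    rw [hz, inner_smul_right, Complex.re_ofReal_mul]
  rw [h1] at hmain
  have h2 : 0 ≤ K * (‖v z T‖ ^ 2 * ‖dual A u T‖) := by positivity
  have h3 : 0 ≤ C * r ^ 3 / δ * Real.exp (-δ * T) := by positivity
  have h4 : C * r ^ 3 / δ = C / δ * r ^ 3 := by ring
  linarith

theorem upper_f (hN : Num A m k) (hk : k < 2 * m) {P : ℝ} (hP0 : 0 < P) (hP1 : P < 1)
    {f : E → E} (hf : ParamRep A f) {e u : E} (he : ‖e‖ = 1) (hu : ‖u‖ = 1)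
    {r : ℝ} (hr0 : 0 < r) (hr1 : r ≤ 1 / 10) :
    (inner ℂ u (f ((r : ℂ) • e))).re ≤ r * (inner ℂ u e).re + KP m k P * r ^ 2 +
        ((768 + 392 * KP m k P) * ‖A‖ / (27 / 11 * m - k)) * r ^ 3 := by
  obtain ⟨-, -, -, h, v, hh, hv, hlim⟩ := hf
  have hzb : (r : ℂ) • e ∈ ball (0 : E) 1 := by
    rw [mem_ball_zero_iff, norm_smul, he, mul_one, Complex.norm_real, Real.norm_eq_abs,
      abs_of_pos hr0]
    linarith
  have h1 := hlim.tendsto_at hzb
  have h2 : Tendsto (fun T : ℝ => (inner ℂ u ((NormedSpace.exp ((T : ℂ) • A))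
      (v ((r : ℂ) • e) T))).re) atTop (𝓝 (inner ℂ u (f ((r : ℂ) • e))).re) :=
    (Complex.continuous_re.tendsto _).comp (((innerSL ℂ u).continuous.tendsto _).comp h1)
  refine le_of_tendsto h2 ?_
  filter_upwards [eventually_ge_atTop (0 : ℝ)] with T hT
  exact upper_flow hN hk hP0 hP1 hh hv he hu hr0 hr1 hT

theorem upper_re (hN : Num A m k) (hk : k < 2 * m) {P : ℝ} (hP0 : 0 < P) (hP1 : P < 1)
    {f : E → E} (hf : ParamRep A f) {e u : E} (he : ‖e‖ = 1) (hu : ‖u‖ = 1) :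
    (inner ℂ u (P2 f e)).re ≤ KP m k P := by
  have hT := taylor2 (hf.1 0 (mem_ball_self one_pos)) hf.2.1
  rw [hf.2.2.1] at hT
  obtain ⟨c, hc⟩ := hT.bound
  have htend : Tendsto (fun r : ℝ => (r : ℂ) • e) (𝓝[>] 0) (𝓝 0) := by
    have h1 : Continuous (fun r : ℝ => (r : ℂ) • e) := by fun_prop
    have h2 := h1.tendsto 0
    simp only [Complex.ofReal_zero, zero_smul] at h2
    exact h2.mono_left nhdsWithin_le_nhds
  have hev := htend.eventually hc
  set D := (768 + 392 * KP m k P) * ‖A‖ / (27 / 11 * m - k) with hD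
  have hlim : Tendsto (fun r : ℝ => KP m k P + (D + c) * r) (𝓝[>] 0) (𝓝 (KP m k P)) := by
    have h1 : Continuous (fun r : ℝ => KP m k P + (D + c) * r) := by fun_prop
    have h2 := h1.tendsto 0
    simp only [mul_zero, add_zero] at h2
    exact h2.mono_left nhdsWithin_le_nhds
  refine ge_of_tendsto hlim ?_
  filter_upwards [hev, self_mem_nhdsWithin, Ioo_mem_nhdsGT (show (0 : ℝ) < 1 / 10 by norm_num)]
    with r h1 h2 h3
  have hr0 : 0 < r := h2
  have hr1 : r ≤ 1 / 10 := h3.2.le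
  have h4 := upper_f hN hk hP0 hP1 hf he hu hr0 hr1
  rw [← hD] at h4
  set R : E := f ((r : ℂ) • e) - (ContinuousLinearMap.id ℂ E) ((r : ℂ) • e) - P2 f ((r : ℂ) • e)
    with hR
  have h5 : ‖R‖ ≤ c * r ^ 3 := by
    have : ‖‖(r : ℂ) • e‖ ^ 3‖ = r ^ 3 := by
      rw [norm_pow, norm_norm, norm_smul, he, mul_one, Complex.norm_real, Real.norm_eq_abs,
        abs_of_pos hr0]
    rw [this] at h1
    exact h1
  have h6 : f ((r : ℂ) • e) = R + (r : ℂ) • e + (r : ℂ) ^ 2 • P2 f e := by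
    rw [hR, P2_smul, ContinuousLinearMap.id_apply]; abel
  have h7 : (inner ℂ u (f ((r : ℂ) • e))).re = (inner ℂ u R).re + r * (inner ℂ u e).re +
      r ^ 2 * (inner ℂ u (P2 f e)).re := by
    rw [h6, inner_add_right, inner_add_right, inner_smul_right, inner_smul_right, Complex.add_re,
      Complex.add_re, Complex.re_ofReal_mul, ← Complex.ofReal_pow, Complex.re_ofReal_mul]
  have h8 : -(c * r ^ 3) ≤ (inner ℂ u R).re := by
    have e1 := norm_inner_le_norm (𝕜 := ℂ) u R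
    rw [hu, one_mul] at e1
    have e2 := Complex.abs_re_le_norm (inner ℂ u R : ℂ)
    have e3 := neg_abs_le (inner ℂ u R : ℂ).re
    linarith
  have h9 : r ^ 2 * (inner ℂ u (P2 f e)).re ≤ r ^ 2 * (KP m k P + (D + c) * r) := by
    nlinarith
  exact le_of_mul_le_mul_left h9 (by positivity)

theorem upper (hN : Num A m k) (hk : k < 2 * m) {P : ℝ} (hP0 : 0 < P) (hP1 : P < 1)
    {f : E → E} (hf : ParamRep A f) {e : E} (he : ‖e‖ = 1) : ‖P2 f e‖ ≤ KP m k P := by
  have hmk := hN.m_le_k he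
  have hm := hN.pos
  have hKP := KP_nonneg hm (by linarith) hk hP0 hP1
  by_cases hy : P2 f e = 0
  · rw [hy, norm_zero]; exact hKP
  · have hyn : 0 < ‖P2 f e‖ := norm_pos_iff.2 hy
    have h1 := upper_re hN hk hP0 hP1 hf he (u := (((‖P2 f e‖⁻¹ : ℝ)) : ℂ) • P2 f e) (by
      rw [norm_smul, Complex.norm_real, norm_inv, norm_norm, inv_mul_cancel₀ hyn.ne'])
    rw [inner_smul_left, Complex.conj_ofReal, Complex.re_ofReal_mul, reInner_self] at h1
    have h3 : ‖P2 f e‖⁻¹ * ‖P2 f e‖ ^ 2 = ‖P2 f e‖ := by field_simp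
    rw [h3] at h1
    exact h1

end Pool.Agent.helper37.PR
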