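import Pool.Agent.helper37.PR.Lower
import Pool.Agent.helper37.PR.Upper

/-! Eigenvectors of normal operators. -/

set_option autoImplicit false

namespace Pool.Agent.helper37.PR

open Metric Set Filter Topology

variable {E : Type*} [NormedAddCommGroup E] [InnerProductSpace ℂ E]

/-- `m(A) = min {Re ⟨Az, z⟩ : ‖z‖ = 1}` -/
noncomputable def mNum (A : E →L[ℂ] E) : ℝ := sInf {x : ℝ | ∃ z : E, ‖z‖ = 1 ∧ x = (inner ℂ z (A z)).re}

/-- `k₊(A) = max {Re λ : λ an eigenvalue of A}` -/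
noncomputable def kPlus (A : E →L[ℂ] E) : ℝ :=
  sSup {x : ℝ | ∃ l : ℂ, (∃ z : E, z ≠ 0 ∧ A z = l • z) ∧ x = l.re}

variable [FiniteDimensional ℂ E] {A : E →L[ℂ] E}

theorem sphere_nonempty [Nontrivial E] : ∃ z : E, ‖z‖ = 1 := by
  obtain ⟨x, hx⟩ := exists_ne (0 : E)
  have hxn : 0 < ‖x‖ := norm_pos_iff.2 hx
  refine ⟨(((‖x‖⁻¹ : ℝ)) : ℂ) • x, ?_⟩
  rw [norm_smul, Complex.norm_real, norm_inv, norm_norm, inv_mul_cancel₀ hxn.ne']

theorem exists_min [Nontrivial E] (A : E →L[ℂ] E) : ∃ x : E, ‖x‖ = 1 ∧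
    ∀ z : E, ‖z‖ = 1 → (inner ℂ x (A x)).re ≤ (inner ℂ z (A z)).re := by
  have := FiniteDimensional.proper_rclike ℂ E
  have hc : Continuous fun z : E => (inner ℂ z (A z)).re := by fun_prop
  obtain ⟨z0, hz0⟩ := sphere_nonempty (E := E)
  obtain ⟨x, hx, hmin⟩ := (isCompact_sphere (0 : E) 1).exists_isMinOn ⟨z0, by simpa using hz0⟩
    hc.continuousOn
  refine ⟨x, by simpa using hx, fun z hz => ?_⟩
  exact hmin (show z ∈ sphere (0 : E) 1 by simpa using hz)

theorem min_homog {m : ℝ} (hmin : ∀ z : E, ‖z‖ = 1 → m ≤ (inner ℂ z (A z)).re) (x : E) :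
    m * ‖x‖ ^ 2 ≤ (inner ℂ x (A x)).re := by
  by_cases hx : x = 0
  · rw [hx]; simp
  have hxn : 0 < ‖x‖ := norm_pos_iff.2 hx
  have h1 := hmin ((((‖x‖⁻¹ : ℝ)) : ℂ) • x) (by
    rw [norm_smul, Complex.norm_real, norm_inv, norm_norm, inv_mul_cancel₀ hxn.ne'])
  rw [map_smul, inner_smul_left, inner_smul_right, Complex.conj_ofReal, Complex.re_ofReal_mul,
    Complex.re_ofReal_mul] at h1
  have h2 : ‖x‖⁻¹ * (‖x‖⁻¹ * (inner ℂ x (A x)).re) = (inner ℂ x (A x)).re / ‖x‖ ^ 2 := by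
    field_simp
  rw [h2, le_div_iff₀ (by positivity)] at h1
  exact h1

/-- a minimum point of the quadratic form is an eigenvector of `A + A*` -/
theorem min_eig {x : E} (hx : ‖x‖ = 1)
    (hmin : ∀ z : E, ‖z‖ = 1 → (inner ℂ x (A x)).re ≤ (inner ℂ z (A z)).re) :
    (A + ContinuousLinearMap.adjoint A) x = ((2 * (inner ℂ x (A x)).re : ℝ) : ℂ) • x := by
  set S : E →L[ℂ] E := A + ContinuousLinearMap.adjoint A with hS
  have hsa : IsSelfAdjoint S := by
    rw [hS, ← ContinuousLinearMap.star_eq_adjoint]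
    exact IsSelfAdjoint.add_star_self A
  have hre : ∀ z : E, S.reApplyInnerSelf z = 2 * (inner ℂ z (A z)).re := by
    intro z
    rw [ContinuousLinearMap.reApplyInnerSelf_apply]
    have h1 : (inner ℂ (S z) z).re = 2 * (inner ℂ z (A z)).re := by
      rw [hS, add_apply, inner_add_left, Complex.add_re,
        ContinuousLinearMap.adjoint_inner_left, reInner_comm (A z) z]
      ring
    exact h1
  have hext : IsLocalExtrOn S.reApplyInnerSelf (sphere (0 : E) ‖x‖) x := by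
    left
    apply IsMinOn.localize
    intro z hz
    rw [mem_sphere_zero_iff_norm, hx] at hz
    simp only [Set.mem_ofPred_eq, hre]
    linarith [hmin z hz]
  have h1 := hsa.eq_smul_self_of_isLocalExtrOn hext
  have hr : S.rayleighQuotient x = 2 * (inner ℂ x (A x)).re := by
    rw [ContinuousLinearMap.rayleighQuotient, hre, hx]
    simp
  rw [h1, hr]
  rfl

theorem exists_eigenvector_in (W : Submodule ℂ E) (hW : W ≠ ⊥) (hA : ∀ x ∈ W, A x ∈ W) :
    ∃ e ∈ W, ‖e‖ = 1 ∧ ∃ l : ℂ, A e = l • e := by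
  have : Nontrivial W := Submodule.nontrivial_iff_ne_bot.2 hW
  obtain ⟨l, hl⟩ := Module.End.exists_eigenvalue ((A : E →ₗ[ℂ] E).restrict hA)
  obtain ⟨v, hv⟩ := hl.exists_hasEigenvector
  have h1 := hv.apply_eq_smul
  have h2 : A (v : E) = l • (v : E) := by
    have := congrArg Subtype.val h1
    simpa using this
  have hv0 : (v : E) ≠ 0 := by
    intro h; exact hv.2 (Subtype.ext h)
  have hxn : 0 < ‖(v : E)‖ := norm_pos_iff.2 hv0
  refine ⟨(((‖(v : E)‖⁻¹ : ℝ)) : ℂ) • (v : E), W.smul_mem _ v.2, ?_, l, ?_⟩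
  · rw [norm_smul, Complex.norm_real, norm_inv, norm_norm, inv_mul_cancel₀ hxn.ne']
  · rw [map_smul, h2, smul_comm]

theorem adjoint_eig (hA : IsStarNormal A) {x : E} {l : ℂ} (hx : A x = l • x) :
    ContinuousLinearMap.adjoint A x = (starRingEnd ℂ) l • x := by
  have h1 := (ContinuousLinearMap.isStarNormal_iff_norm_eq_adjoint.1 hA) x
  rw [← sub_eq_zero, ← inner_self_eq_zero (𝕜 := ℂ)]
  have h2 : inner ℂ (ContinuousLinearMap.adjoint A x) (ContinuousLinearMap.adjoint A x) =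
      (inner ℂ (A x) (A x) : ℂ) := by
    rw [inner_self_eq_norm_sq_to_K, inner_self_eq_norm_sq_to_K, h1]
  have h3 : inner ℂ (ContinuousLinearMap.adjoint A x) x = l * (inner ℂ x x : ℂ) := by
    rw [ContinuousLinearMap.adjoint_inner_left, hx, inner_smul_right]
  have h4 : inner ℂ x (ContinuousLinearMap.adjoint A x) = (starRingEnd ℂ) l * (inner ℂ x x : ℂ) := by
    rw [ContinuousLinearMap.adjoint_inner_right, hx, inner_smul_left]
  rw [inner_sub_left, inner_sub_right, inner_sub_right, h2, hx]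
  simp only [inner_smul_left, inner_smul_right, h3, h4, Complex.conj_conj]
  ring

theorem eig_re (e : E) (he : ‖e‖ = 1) {l : ℂ} (hl : A e = l • e) :
    (inner ℂ e (A e)).re = l.re := by
  rw [hl, inner_smul_right, inner_self_eq_norm_sq_to_K, he]
  simp

/-- extremal eigenvector of a normal operator -/
theorem normal_min [Nontrivial E] (hA : IsStarNormal A) :
    ∃ e : E, ‖e‖ = 1 ∧ (∃ l : ℂ, A e = l • e) ∧
      (∀ z : E, ‖z‖ = 1 → (inner ℂ e (A e)).re ≤ (inner ℂ z (A z)).re) ∧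
      (A + ContinuousLinearMap.adjoint A) e = ((2 * (inner ℂ e (A e)).re : ℝ) : ℂ) • e := by
  obtain ⟨x, hx, hmin⟩ := exists_min A
  have hS := min_eig hx hmin
  set M : ℝ := (inner ℂ x (A x)).re with hM
  set S : E →L[ℂ] E := A + ContinuousLinearMap.adjoint A with hSdef
  have hcomm : ∀ z, S (A z) = A (S z) := by
    intro z
    have h1 : (ContinuousLinearMap.adjoint A) (A z) = A ((ContinuousLinearMap.adjoint A) z) := by
      have h2 := hA.star_comm_self
      rw [ContinuousLinearMap.star_eq_adjoint] at h2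
      exact congrArg (fun L : E →L[ℂ] E => L z) h2
    rw [hSdef, add_apply, add_apply, map_add, h1]
  let W : Submodule ℂ E := LinearMap.ker ((S - ((2 * M : ℝ) : ℂ) • ContinuousLinearMap.id ℂ E :
    E →L[ℂ] E) : E →ₗ[ℂ] E)
  have hWmem : ∀ z, z ∈ W ↔ S z = ((2 * M : ℝ) : ℂ) • z := by
    intro z
    simp only [W, LinearMap.mem_ker, ContinuousLinearMap.coe_coe, sub_apply,
      smul_apply, ContinuousLinearMap.id_apply, sub_eq_zero]
  have hWne : W ≠ ⊥ := by
    intro h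
    have h1 : x ∈ W := (hWmem x).2 hS
    rw [h, Submodule.mem_bot] at h1
    rw [h1, norm_zero] at hx
    exact zero_ne_one hx
  obtain ⟨e, heW, he, l, hl⟩ := exists_eigenvector_in (A := A) W hWne (by
    intro z hz
    rw [hWmem] at hz ⊢
    rw [hcomm, hz, map_smul])
  have hSe : S e = ((2 * M : ℝ) : ℂ) • e := (hWmem e).1 heW
  have hre : (inner ℂ e (A e)).re = M := by
    have h1 : (inner ℂ e (S e)).re = 2 * (inner ℂ e (A e)).re := by
      rw [hSdef, add_apply, inner_add_right, Complex.add_re, reInner_adjoint]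
      ring
    rw [hSe, inner_smul_right, Complex.re_ofReal_mul, reInner_self, he] at h1
    linarith
  refine ⟨e, he, ⟨l, hl⟩, ?_, ?_⟩
  · rw [hre]; exact hmin
  · rw [hre]; exact hSe

theorem mNum_eq {m : ℝ} {e : E} (he : ‖e‖ = 1) (hm : (inner ℂ e (A e)).re = m)
    (hmin : ∀ z : E, ‖z‖ = 1 → m ≤ (inner ℂ z (A z)).re) : mNum A = m := by
  apply IsLeast.csInf_eq
  refine ⟨⟨e, he, hm.symm⟩, ?_⟩
  rintro x ⟨z, hz, rfl⟩
  exact hmin z hz

theorem kPlus_eq {k : ℝ} {e : E} (he : ‖e‖ = 1) {l : ℂ} (hl : A e = l • e) (hk : l.re = k)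
    (hmax : ∀ z : E, ‖z‖ = 1 → (inner ℂ z (A z)).re ≤ k) : kPlus A = k := by
  apply IsGreatest.csSup_eq
  refine ⟨⟨l, ⟨e, ?_, hl⟩, hk.symm⟩, ?_⟩
  · intro h0
    rw [h0, norm_zero] at he
    exact zero_ne_one he
  · rintro x ⟨l', ⟨z, hz, hzl⟩, rfl⟩
    have hzn : 0 < ‖z‖ := norm_pos_iff.2 hz
    have h1 : ‖(((‖z‖⁻¹ : ℝ)) : ℂ) • z‖ = 1 := by
      rw [norm_smul, Complex.norm_real, norm_inv, norm_norm, inv_mul_cancel₀ hzn.ne']
    have h2 := hmax _ h1
    rwa [eig_re _ h1 (l := l') (by rw [map_smul, hzl, smul_comm])] at h2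

/-- the frame of a normal operator -/
theorem exists_frame (hA : IsStarNormal A) (hn : 2 ≤ Module.finrank ℂ E) (h0 : 0 < mNum A) :
    Num A (mNum A) (kPlus A) ∧
      ∃ (e₁ e₂ : E) (l₁ l₂ : ℂ), Frame A (mNum A) (kPlus A) e₁ e₂ l₁ l₂ := by
  have : Nontrivial E := Module.nontrivial_of_finrank_pos (R := ℂ) (by omega)
  obtain ⟨e₂, h2n, ⟨l₂, hl₂⟩, hmin, hS2⟩ := normal_min hA
  have hA' : IsStarNormal (-A) := by
    constructor
    rw [star_neg]
    exact hA.star_comm_self.neg_left.neg_right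
  obtain ⟨e₁, h1n, ⟨l₁', hl₁'⟩, hmax', hS1'⟩ := normal_min hA'
  have hmax : ∀ z : E, ‖z‖ = 1 → (inner ℂ z (A z)).re ≤ (inner ℂ e₁ (A e₁)).re := by
    intro z hz
    have := hmax' z hz
    simp only [neg_apply, inner_neg_right, Complex.neg_re] at this
    linarith
  have hl₁ : A e₁ = (-l₁') • e₁ := by
    rw [neg_apply] at hl₁'
    rw [neg_smul, ← hl₁', neg_neg]
  have hS1 : (A + ContinuousLinearMap.adjoint A) e₁ =
      ((2 * (inner ℂ e₁ (A e₁)).re : ℝ) : ℂ) • e₁ := by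
    simp only [map_neg, add_apply, neg_apply,
      inner_neg_right, Complex.neg_re] at hS1'
    rw [add_apply]
    have h1 := congrArg (fun y => -y) hS1'
    simp only [neg_add_rev, neg_neg] at h1
    rw [add_comm, h1, ← neg_smul]
    congr 1
    push_cast
    ring
  set m : ℝ := (inner ℂ e₂ (A e₂)).re with hm
  set k : ℝ := (inner ℂ e₁ (A e₁)).re with hk
  have hmeq : mNum A = m := mNum_eq h2n hm.symm hmin
  have hkre : (-l₁').re = k := (eig_re e₁ h1n hl₁).symm.trans hk.symm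
  have hkeq : kPlus A = k := kPlus_eq h1n hl₁ hkre hmax
  rw [hmeq] at h0
  rw [hmeq, hkeq]
  have hmaxh : ∀ x : E, (inner ℂ x (A x)).re ≤ k * ‖x‖ ^ 2 := by
    intro x
    have h1 := min_homog (A := -A) (m := -k) (by
      intro z hz
      rw [neg_apply, inner_neg_right, Complex.neg_re]
      linarith [hmax z hz]) x
    rw [neg_apply, inner_neg_right, Complex.neg_re] at h1
    linarith
  have hN : Num A m k := ⟨h0, min_homog hmin, hmaxh⟩
  refine ⟨hN, ?_⟩
  by_cases hmk : m = k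
  · -- all directions are extremal
    let W : Submodule ℂ E := LinearMap.ker ((innerSL ℂ e₂ : E →L[ℂ] ℂ) : E →ₗ[ℂ] ℂ)
    have hWmem : ∀ z, z ∈ W ↔ inner ℂ e₂ z = (0 : ℂ) := by
      intro z
      simp only [W, LinearMap.mem_ker, ContinuousLinearMap.coe_coe, innerSL_apply_apply]
    have hWne : W ≠ ⊥ := by
      intro h
      have h1 := LinearMap.finrank_range_add_finrank_ker ((innerSL ℂ e₂ : E →L[ℂ] ℂ) : E →ₗ[ℂ] ℂ)
      have h2 : Module.finrank ℂ W = 0 := by rw [h]; simp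
      have h3 : Module.finrank ℂ (LinearMap.range ((innerSL ℂ e₂ : E →L[ℂ] ℂ) : E →ₗ[ℂ] ℂ)) ≤ 1 := by
        have := Submodule.finrank_le (LinearMap.range ((innerSL ℂ e₂ : E →L[ℂ] ℂ) : E →ₗ[ℂ] ℂ))
        simpa using this
      have h4 : Module.finrank ℂ (LinearMap.ker ((innerSL ℂ e₂ : E →L[ℂ] ℂ) : E →ₗ[ℂ] ℂ)) = 0 := h2
      omega
    obtain ⟨e, heW, he, l, hl⟩ := exists_eigenvector_in (A := A) W hWne (by
      intro z hz
      rw [hWmem] at hz ⊢
      rw [← ContinuousLinearMap.adjoint_inner_left, adjoint_eig hA hl₂, inner_smul_left, hz,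
        mul_zero])
    refine ⟨e, e₂, l, l₂, ⟨he, h2n, (hWmem e).1 heW, hl, hl₂, adjoint_eig hA hl, adjoint_eig hA hl₂,
      ?_, (eig_re e₂ h2n hl₂).symm.trans hm.symm⟩⟩
    have h1 := hmin e he
    have h2 := hmax e he
    rw [eig_re e he hl] at h1 h2
    linarith
  · refine ⟨e₁, e₂, -l₁', l₂, ⟨h1n, h2n, ?_, hl₁, hl₂, adjoint_eig hA hl₁, adjoint_eig hA hl₂,
      hkre, (eig_re e₂ h2n hl₂).symm.trans hm.symm⟩⟩
    have h1 : inner ℂ ((A + ContinuousLinearMap.adjoint A) e₂) e₁ =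
        inner ℂ e₂ ((A + ContinuousLinearMap.adjoint A) e₁) := by
      simp only [add_apply, inner_add_left, inner_add_right,
        ContinuousLinearMap.adjoint_inner_left, ContinuousLinearMap.adjoint_inner_right]
      rw [add_comm]
    rw [hS2, hS1, inner_smul_left, inner_smul_right, Complex.conj_ofReal] at h1
    have h2 : (((2 * m : ℝ) : ℂ) - ((2 * k : ℝ) : ℂ)) * inner ℂ e₂ e₁ = 0 := by
      rw [sub_mul, h1, sub_self]
    rcases mul_eq_zero.1 h2 with h3 | h3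
    · exfalso
      rw [sub_eq_zero, Complex.ofReal_inj] at h3
      exact hmk (by linarith)
    · exact h3

theorem mNum_pos [Nontrivial E] (hA : IsStarNormal A) (hk : kPlus A < 2 * mNum A) :
    0 < mNum A := by
  obtain ⟨e, he, ⟨l, hl⟩, hmin, -⟩ := normal_min hA
  have h1 : mNum A = (inner ℂ e (A e)).re := mNum_eq he rfl hmin
  have hA' : IsStarNormal (-A) := by
    constructor
    rw [star_neg]
    exact hA.star_comm_self.neg_left.neg_right
  obtain ⟨e₁, h1n, ⟨l₁', hl₁'⟩, hmax', -⟩ := normal_min hA'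
  have hl₁ : A e₁ = (-l₁') • e₁ := by
    rw [neg_apply] at hl₁'
    rw [neg_smul, ← hl₁', neg_neg]
  have h2 : kPlus A = (-l₁').re := by
    apply kPlus_eq h1n hl₁ rfl
    intro z hz
    have := hmax' z hz
    simp only [neg_apply, inner_neg_right, Complex.neg_re] at this
    have h3 := eig_re e₁ h1n hl₁
    linarith
  have h3 := eig_re e₁ h1n hl₁
  have h4 := hmin e₁ h1n
  linarith

/-- the sharp bound -/
theorem sharp_P2 (hfr : 2 ≤ Module.finrank ℂ E) (hA : IsStarNormal A)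
    (hk : kPlus A < 2 * mNum A) :
    IsGreatest {a : ℝ | 0 < a ∧ ∀ x y : ℝ, 0 ≤ x → 0 ≤ y → x ^ 2 + y ^ 2 ≤ 1 →
      0 ≤ kPlus A * x ^ 2 + mNum A * y ^ 2 - a * x * y ^ 2} (a0 (mNum A) (kPlus A)) ∧
    IsGreatest {x : ℝ | ∃ f, ParamRep A f ∧ ∃ z, ‖z‖ = 1 ∧ x = ‖P2 f z‖}
      (a0 (mNum A) (kPlus A) / (2 * mNum A - kPlus A)) := by
  have hnt : Nontrivial E := Module.nontrivial_of_finrank_pos (R := ℂ) (by omega)
  have h0 := mNum_pos hA hk
  obtain ⟨hN, e₁, e₂, l₁, l₂, hF⟩ := exists_frame hA hfr h0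
  have hmk := hN.m_le_k hF.n1
  have hk0 : 0 < kPlus A := lt_of_lt_of_le h0 hmk
  refine ⟨a0_isGreatest h0 hk0, ⟨fext (mNum A) (kPlus A) e₁ e₂, fext_paramRep hN hk hF, e₂, hF.n2,
    (norm_P2_fext hN hk hF).symm⟩, ?_⟩
  rintro x ⟨f, hf, z, hz, rfl⟩
  have hq := q0_pos h0 hk0
  have hq1 := q0_lt_one h0 hk0
  have h1 := upper hN hk (P := 1 - q0 (mNum A) (kPlus A)) (by linarith) (by linarith) hf hz
  refine h1.trans (le_of_eq ?_)
  have h2 := a0_value h0 hk0
  have h3 : 0 < √(q0 (mNum A) (kPlus A)) := Real.sqrt_pos.2 hq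
  have h4 : 0 < 2 * mNum A - kPlus A := by linarith
  have h5 : 0 < 1 - q0 (mNum A) (kPlus A) := by linarith
  rw [KP, sub_sub_cancel, h2]
  field_simp

theorem mNum_id [Nontrivial E] : mNum (ContinuousLinearMap.id ℂ E) = 1 := by
  obtain ⟨e, he⟩ := sphere_nonempty (E := E)
  have h1 : ∀ z : E, ‖z‖ = 1 → (inner ℂ z ((ContinuousLinearMap.id ℂ E) z)).re = 1 := by
    intro z hz
    rw [ContinuousLinearMap.id_apply, reInner_self, hz]; norm_num
  exact mNum_eq he (h1 e he) fun z hz => (h1 z hz).ge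

theorem kPlus_id [Nontrivial E] : kPlus (ContinuousLinearMap.id ℂ E) = 1 := by
  obtain ⟨e, he⟩ := sphere_nonempty (E := E)
  have h1 : ∀ z : E, ‖z‖ = 1 → (inner ℂ z ((ContinuousLinearMap.id ℂ E) z)).re = 1 := by
    intro z hz
    rw [ContinuousLinearMap.id_apply, reInner_self, hz]; norm_num
  exact kPlus_eq he (l := 1) (by simp) (by simp) fun z hz => (h1 z hz).le

theorem sharp_P2_id (hfr : 2 ≤ Module.finrank ℂ E) :
    IsGreatest {x : ℝ | ∃ f : E → E, ParamRep (ContinuousLinearMap.id ℂ E) f ∧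
      ∃ z, ‖z‖ = 1 ∧ x = ‖P2 f z‖} (3 * √3 / 2) := by
  have hnt : Nontrivial E := Module.nontrivial_of_finrank_pos (R := ℂ) (by omega)
  have hA : IsStarNormal (ContinuousLinearMap.id ℂ E) := by
    constructor
    have : (ContinuousLinearMap.id ℂ E) = 1 := rfl
    rw [this, star_one]
  have h3 := (sharp_P2 hfr hA (by rw [mNum_id, kPlus_id]; norm_num)).2
  rw [mNum_id, kPlus_id, a0_one] at h3
  have h4 : 3 * √3 / 2 / (2 * 1 - 1) = 3 * √(3 : ℝ) / 2 := by ring
  rw [h4] at h3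
  exact h3

end Pool.Agent.helper37.PR
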