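import Mathlib

/-! Absolutely continuous curves: norms, inner products, monotonicity. -/

set_option autoImplicit false

namespace Pool.Agent.helper37.PR

open MeasureTheory Set Filter Topology

variable {E : Type*} [NormedAddCommGroup E] [InnerProductSpace ℂ E]

theorem ac_norm {F : ℝ → E} {a b : ℝ} (hF : AbsolutelyContinuousOnInterval F a b) :
    AbsolutelyContinuousOnInterval (fun t => ‖F t‖) a b := by
  unfold AbsolutelyContinuousOnInterval at hF ⊢
  apply squeeze_zero (fun t ↦ ?_) (fun t ↦ ?_) hF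
  · exact Finset.sum_nonneg (fun i hi ↦ dist_nonneg)
  · apply Finset.sum_le_sum
    intro i _
    simp only [dist_eq_norm]
    exact abs_norm_sub_norm_le _ _

theorem ac_reInner {w v : ℝ → E} {a b : ℝ} (hw : AbsolutelyContinuousOnInterval w a b)
    (hv : AbsolutelyContinuousOnInterval v a b) :
    AbsolutelyContinuousOnInterval (fun t => (inner ℂ (w t) (v t)).re) a b := by
  have h1 := ac_norm (hw.add hv)
  have h2 := ac_norm (hw.sub hv)
  have h3 := (((h1.mul h1).sub (h2.mul h2))).const_mul (1 / 4)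
  have h4 : (fun t => (inner ℂ (w t) (v t)).re) = fun t => 1 / 4 *
      (((fun t => ‖(w + v) t‖) * (fun t => ‖(w + v) t‖)) -
        ((fun t => ‖(w - v) t‖) * (fun t => ‖(w - v) t‖))) t := by
    funext t
    have e1 := re_inner_eq_norm_add_mul_self_sub_norm_sub_mul_self_div_four (𝕜 := ℂ) (w t) (v t)
    simp only [Pi.sub_apply, Pi.mul_apply, Pi.add_apply]
    have e2 : (inner ℂ (w t) (v t)).re = (‖w t + v t‖ * ‖w t + v t‖ - ‖w t - v t‖ * ‖w t - v t‖) / 4 :=
      e1
    rw [e2]; ring
  rw [h4]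
  exact h3

theorem ac_le_zero {g g' : ℝ → ℝ} {T : ℝ} (hT : 0 ≤ T) (hg : AbsolutelyContinuousOnInterval g 0 T)
    (hd : ∀ᵐ t : ℝ, 0 ≤ t → t ≤ T → HasDerivAt g (g' t) t ∧ g' t ≤ 0) : g T ≤ g 0 := by
  have h1 := hg.integral_deriv_eq_sub
  have h2 : ∫ x in (0 : ℝ)..T, deriv g x ≤ ∫ x in (0 : ℝ)..T, (0 : ℝ) := by
    apply intervalIntegral.integral_mono_ae_restrict hT hg.intervalIntegrable_deriv
      (intervalIntegrable_const)
    filter_upwards [ae_restrict_of_ae hd, ae_restrict_mem measurableSet_Icc] with t ht hmem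
    obtain ⟨h3, h4⟩ := ht hmem.1 hmem.2
    rw [h3.deriv]; exact h4
  simp only [intervalIntegral.integral_zero] at h2
  linarith

end Pool.Agent.helper37.PR
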