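import Pool.Agent.helper37.PR.Key

/-! Uniform bounds on the class `𝒩_A`. -/

set_option autoImplicit false

namespace Pool.Agent.helper37.PR

open Metric MeasureTheory Set Filter Topology Asymptotics

variable {E : Type*} [NormedAddCommGroup E] [InnerProductSpace ℂ E] [CompleteSpace E]
variable {A : E →L[ℂ] E} {h : E → E}

omit [CompleteSpace E] in
theorem norm_inner_A_le (A : E →L[ℂ] E) (x y : E) : ‖(inner ℂ x (A y) : ℂ)‖ ≤ ‖A‖ * ‖x‖ * ‖y‖ := by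
  calc ‖(inner ℂ x (A y) : ℂ)‖ ≤ ‖x‖ * ‖A y‖ := norm_inner_le_norm _ _
    _ ≤ ‖x‖ * (‖A‖ * ‖y‖) := by gcongr; exact A.le_opNorm y
    _ = ‖A‖ * ‖x‖ * ‖y‖ := by ring

omit [CompleteSpace E] in
theorem re_inner_A_le (A : E →L[ℂ] E) (x : E) : (inner ℂ x (A x)).re ≤ ‖A‖ * ‖x‖ ^ 2 := by
  calc (inner ℂ x (A x)).re ≤ ‖(inner ℂ x (A x) : ℂ)‖ := Complex.re_le_norm _
    _ ≤ ‖A‖ * ‖x‖ * ‖x‖ := norm_inner_A_le A x x
    _ = ‖A‖ * ‖x‖ ^ 2 := by ring

omit [CompleteSpace E] in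
theorem norm_le_of_inner {y : E} {C : ℝ} (hC : ∀ u : E, ‖u‖ = 1 → ‖(inner ℂ u y : ℂ)‖ ≤ C)
    (hC0 : 0 ≤ C) : ‖y‖ ≤ C := by
  by_cases hy : y = 0
  · rw [hy, norm_zero]; exact hC0
  · have hyn : 0 < ‖y‖ := norm_pos_iff.2 hy
    have h1 := hC (((‖y‖⁻¹ : ℝ) : ℂ) • y) (by
      rw [norm_smul, Complex.norm_real, norm_inv, norm_norm, inv_mul_cancel₀ hyn.ne'])
    rw [inner_smul_left, inner_self_eq_norm_sq_to_K, Complex.conj_ofReal, norm_mul,
      Complex.norm_real, norm_inv, norm_norm] at h1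
    have h2 : ‖((‖y‖ : ℂ)) ^ 2‖ = ‖y‖ ^ 2 := by
      rw [norm_pow, Complex.norm_real, norm_norm]
    have h3 : ‖y‖⁻¹ * ‖y‖ ^ 2 = ‖y‖ := by field_simp
    have h4 : ‖y‖⁻¹ * ‖((‖y‖ : ℂ)) ^ 2‖ ≤ C := h1
    rw [h2, h3] at h4
    exact h4

/-- bound of the second order part -/
theorem P2_bound (hc : IsCara A h) (v : E) : ‖P2 h v‖ ≤ 4 * ‖A‖ * ‖v‖ ^ 2 := by
  by_cases hv : v = 0
  · have := P2_smul h 0 v
    rw [zero_smul] at this
    rw [hv, this]
    simp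
  have hvn : 0 < ‖v‖ := norm_pos_iff.2 hv
  set b : E := (((2 * ‖v‖)⁻¹ : ℝ) : ℂ) • v with hb
  have hbn : ‖b‖ = 1 / 2 := by
    rw [hb, norm_smul, Complex.norm_real, norm_inv, norm_mul, norm_norm, Real.norm_ofNat]
    field_simp
  have h1 : ‖P2 h b‖ ≤ ‖A‖ := by
    apply norm_le_of_inner _ (norm_nonneg _)
    intro u hu
    have h2 := key hc (b := b) (c := ((1 / 2 : ℝ) : ℂ) • u) (by
      rw [hbn, norm_smul, hu, Complex.norm_real]; norm_num)
    rw [inner_smul_left, Complex.conj_ofReal, norm_mul, Complex.norm_real] at h2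
    have h3 := re_inner_A_le A b
    have h4 := re_inner_A_le A (((1 / 2 : ℝ) : ℂ) • u)
    rw [hbn] at h3
    rw [norm_smul, hu, Complex.norm_real] at h4
    rw [Real.norm_eq_abs, abs_of_pos (by norm_num : (0 : ℝ) < 1 / 2)] at h2 h4
    linarith
  have h2 : v = (((2 * ‖v‖ : ℝ)) : ℂ) • b := by
    rw [hb, smul_smul, ← Complex.ofReal_mul, mul_inv_cancel₀ (by positivity), Complex.ofReal_one,
      one_smul]
  have h3 : ‖P2 h v‖ = 4 * ‖v‖ ^ 2 * ‖P2 h b‖ := by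
    conv_lhs => rw [h2]
    rw [P2_smul, norm_smul, norm_pow, Complex.norm_real, norm_mul, norm_norm, Real.norm_ofNat]
    ring
  rw [h3]
  nlinarith [mul_le_mul_of_nonneg_left h1 (by positivity : 0 ≤ 4 * ‖v‖ ^ 2)]

theorem value_aux (hc : IsCara A h) {v c : E} (hv : ‖v‖ ≤ 1 / 4) (hcn : ‖c‖ ≤ 1 / 4) :
    ‖(inner ℂ ((2 : ℂ) • v + (3 / 2 : ℂ) • c) (h v) : ℂ)‖ ≤ 2 * ‖A‖ := by
  set b : E := (2 : ℂ) • v - (1 / 2 : ℂ) • c with hb
  have hbn : ‖b‖ ≤ 5 / 8 := by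
    calc ‖b‖ ≤ ‖(2 : ℂ) • v‖ + ‖(1 / 2 : ℂ) • c‖ := norm_sub_le _ _
      _ = 2 * ‖v‖ + 1 / 2 * ‖c‖ := by rw [norm_smul, norm_smul]; norm_num
      _ ≤ 5 / 8 := by linarith
  have hg : GoodCurve b c 0 (11 / 10) := by
    intro ζ hζ
    refine ⟨by simp, ?_⟩
    rw [bet, zero_mul, add_zero, inv_one, one_smul, norm_smul]
    have h1 : ‖b + ζ • c‖ ≤ 5 / 8 + 11 / 10 * (1 / 4) := by
      calc ‖b + ζ • c‖ ≤ ‖b‖ + ‖ζ • c‖ := norm_add_le _ _
        _ = ‖b‖ + ‖ζ‖ * ‖c‖ := by rw [norm_smul]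
        _ ≤ 5 / 8 + 11 / 10 * (1 / 4) := by gcongr
    nlinarith [norm_nonneg ζ, norm_nonneg (b + ζ • c)]
  have hA := norm_nonneg A
  set M := Mfun h b c 0 1 with hM
  have hMd : DifferentiableOn ℂ M (ball 0 (11 / 10)) := Mfun_diff hc (by norm_num) hg 1
  have hMre := Mt_re_nonneg (M := M) one_pos (by norm_num : (1 : ℝ) < 11 / 10) hMd
    (fun ζ hζ => Mfun_re hc one_pos (by norm_num) hg hζ)
  have hder := Mfun_hasDerivAt hc b c 0 1
  set m : ℂ := ((1 : ℝ) : ℂ) ^ 2 * inner ℂ b (A b) +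
      ((1 : ℝ) : ℂ) ^ 4 * inner ℂ c (A (c - (0 : ℂ) • b) + P2 h b) +
        0 * (((1 : ℝ) : ℂ) ^ 4 * inner ℂ c (A b)) with hm
  have hMt0 : Mt M 1 0 = m := Mt_zero hder
  -- the size of `m`
  have hkey := key hc (b := b) (c := c) (by nlinarith [norm_nonneg b, norm_nonneg c])
  have hmn : ‖m‖ ≤ ‖A‖ := by
    have e1 : m = inner ℂ b (A b) + inner ℂ c (A c) + inner ℂ c (P2 h b) := by
      rw [hm, zero_smul, sub_zero, inner_add_right]; push_cast; ring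
    rw [e1]
    have e2 := norm_inner_A_le A b b
    have e3 := norm_inner_A_le A c c
    have e4 := re_inner_A_le A b
    have e5 := re_inner_A_le A c
    have e6 : ‖b‖ ^ 2 ≤ 25 / 64 := by nlinarith [norm_nonneg b]
    have e7 : ‖c‖ ^ 2 ≤ 1 / 16 := by nlinarith [norm_nonneg c]
    have e8 := norm_add₃_le (a := (inner ℂ b (A b) : ℂ)) (b := inner ℂ c (A c))
      (c := inner ℂ c (P2 h b))
    have e9 : ‖A‖ * ‖b‖ ^ 2 ≤ ‖A‖ * (25 / 64) := by gcongr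
    have e10 : ‖A‖ * ‖c‖ ^ 2 ≤ ‖A‖ * (1 / 16) := by gcongr
    nlinarith
  -- Carathéodory
  have hcar := caratheodory (q := Mt M 1)
    ((Mt_diff (ρ := 1) (by norm_num : (0 : ℝ) < 11 / 10) hMd).mono (ball_subset_ball (by norm_num)))
    (fun ζ hζ => hMre ζ (by rw [mem_ball_zero_iff] at hζ; exact hζ.le))
    (z := (1 / 2 : ℂ)) (by norm_num)
  have hhalf : ‖(1 / 2 : ℂ)‖ = 1 / 2 := by norm_num
  rw [hMt0, hhalf] at hcar
  have hmre : m.re ≤ ‖m‖ := Complex.re_le_norm m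
  have h1 : ‖Mt M 1 (1 / 2)‖ ≤ 3 * ‖A‖ := by
    have := norm_le_norm_add_norm_sub m (Mt M 1 (1 / 2))
    have h2 : ‖m - Mt M 1 (1 / 2)‖ = ‖Mt M 1 (1 / 2) - m‖ := norm_sub_rev _ _
    have h3 : 2 * m.re * (1 / 2) / (1 - 1 / 2) = 2 * m.re := by ring
    rw [h3] at hcar
    have h4 := norm_sub_norm_le (Mt M 1 (1 / 2)) m
    linarith
  rw [Mt_apply _ _ (by norm_num)] at h1
  have hM0 : M 0 = inner ℂ c (A b) := by
    rw [hM]
    unfold Mfun
    obtain ⟨h2, _⟩ := curve_expand (hc.an 0 (mem_ball_self one_pos)) hc.zero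
      (bet_hasDerivAt b c 0)
    rw [hc.deriv, bet_zero] at h2
    rw [dslope_same, h2.deriv, zero_smul, hc.zero, inner_zero_right]
    push_cast
    ring
  have hM0n : ‖M 0‖ ≤ ‖A‖ / 4 := by
    rw [hM0]
    have e1 := norm_inner_A_le A c b
    have e2 : ‖A‖ * ‖c‖ * ‖b‖ ≤ ‖A‖ * (1 / 4) * (5 / 8) := by gcongr
    nlinarith
  have hMh : M (1 / 2) = inner ℂ ((2 : ℂ) • v + (3 / 2 : ℂ) • c) (h v) := by
    rw [hM]
    unfold Mfun
    have e1 : ((1 / 2 : ℂ)) • bet b c 0 (1 / 2) = v := by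
      rw [bet, zero_mul, add_zero, inv_one, one_smul, hb, smul_add, smul_sub, smul_smul, smul_smul,
        sub_add_cancel]
      norm_num
    rw [dslope_of_ne _ (by norm_num), slope_def_module, sub_zero, e1, zero_smul, hc.zero, sub_zero,
      inner_smul_right, hb, inner_add_left, inner_sub_left, inner_smul_left, inner_smul_left,
      inner_smul_left]
    have e2 : (starRingEnd ℂ) (2 : ℂ) = 2 := by
      have := Complex.conj_ofReal 2; simpa using this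
    have e3 : (starRingEnd ℂ) (1 / 2 : ℂ) = 1 / 2 := by
      have := Complex.conj_ofReal (1 / 2); simpa using this
    have e4 : (starRingEnd ℂ) (3 / 2 : ℂ) = 3 / 2 := by
      have := Complex.conj_ofReal (3 / 2); simpa using this
    rw [e2, e3, e4]
    push_cast
    ring
  rw [hMh] at h1
  set X : ℂ := inner ℂ ((2 : ℂ) • v + (3 / 2 : ℂ) • c) (h v)
  have h5 : X = (X - M 0 + (starRingEnd ℂ) (M 0) * (1 / 2) ^ 2 / ((1 : ℝ) : ℂ) ^ 2) / (1 / 2) * (1 / 2)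
      + M 0 - (starRingEnd ℂ) (M 0) * (1 / 4) := by
    push_cast
    ring
  rw [h5]
  have h6 := norm_sub_le ((X - M 0 + (starRingEnd ℂ) (M 0) * (1 / 2) ^ 2 / ((1 : ℝ) : ℂ) ^ 2) /
    (1 / 2) * (1 / 2) + M 0) ((starRingEnd ℂ) (M 0) * (1 / 4))
  have h7 := norm_add_le ((X - M 0 + (starRingEnd ℂ) (M 0) * (1 / 2) ^ 2 / ((1 : ℝ) : ℂ) ^ 2) /
    (1 / 2) * (1 / 2)) (M 0)
  rw [norm_mul, hhalf] at h7
  rw [norm_mul ((starRingEnd ℂ) (M 0)), Complex.norm_conj] at h6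
  have h8 : ‖(1 / 4 : ℂ)‖ = 1 / 4 := by norm_num
  rw [h8] at h6
  linarith

theorem value_bound (hc : IsCara A h) {v : E} (hv : ‖v‖ ≤ 1 / 4) : ‖h v‖ ≤ 11 * ‖A‖ := by
  have hA := norm_nonneg A
  apply norm_le_of_inner _ (by positivity)
  intro u hu
  have h1 := value_aux hc hv (c := (1 / 4 : ℂ) • u) (by rw [norm_smul, hu]; norm_num)
  have h2 := value_aux hc hv (c := 0) (by rw [norm_zero]; norm_num)
  rw [smul_zero, add_zero] at h2
  rw [inner_add_left] at h1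
  have h3 : ‖(inner ℂ ((3 / 2 : ℂ) • (1 / 4 : ℂ) • u) (h v) : ℂ)‖ ≤ 4 * ‖A‖ := by
    have e1 : (inner ℂ ((3 / 2 : ℂ) • (1 / 4 : ℂ) • u) (h v) : ℂ) =
        (inner ℂ ((2 : ℂ) • v) (h v) + inner ℂ ((3 / 2 : ℂ) • (1 / 4 : ℂ) • u) (h v)) -
          inner ℂ ((2 : ℂ) • v) (h v) := by ring
    rw [e1]
    refine (norm_sub_le _ _).trans ?_
    linarith
  rw [smul_smul, inner_smul_left, norm_mul, Complex.norm_conj] at h3
  have h4 : ‖(3 / 2 * (1 / 4) : ℂ)‖ = 3 / 8 := by norm_num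
  rw [h4] at h3
  linarith

/-- third order remainder -/
theorem remainder3 (hc : IsCara A h) {v : E} (hv : ‖v‖ < 1 / 4) :
    ‖h v - A v - P2 h v‖ ≤ 768 * ‖A‖ * ‖v‖ ^ 3 := by
  have hA := norm_nonneg A
  set K : E → E := fun z => h z - A z - P2 h z with hK
  have hK0 : K 0 = 0 := by
    have : P2 h (0 : E) = 0 := by
      have := P2_smul h 0 (0 : E)
      rw [zero_smul] at this
      rw [this]; simp
    simp only [hK, hc.zero, map_zero, this, sub_zero]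
  have hd : DifferentiableOn ℂ K (ball 0 (1 / 4)) := by
    have h1 : DifferentiableOn ℂ h (ball 0 (1 / 4)) :=
      hc.an.differentiableOn.mono (ball_subset_ball (by norm_num))
    exact (h1.sub A.differentiable.differentiableOn).sub (P2_differentiable h).differentiableOn
  have hmaps : MapsTo K (ball 0 (1 / 4)) (closedBall (K 0) (12 * ‖A‖)) := by
    intro z hz
    rw [mem_ball_zero_iff] at hz
    rw [hK0, mem_closedBall_zero_iff]
    have h1 := value_bound hc hz.le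
    have h2 := A.le_opNorm z
    have h3 := P2_bound hc z
    have h4 : ‖K z‖ ≤ ‖h z‖ + ‖A z‖ + ‖P2 h z‖ :=
      (norm_sub_le _ _).trans (by gcongr; exact norm_sub_le _ _)
    have h5 : ‖A‖ * ‖z‖ ≤ ‖A‖ * (1 / 4) := by gcongr
    have h6 : 4 * ‖A‖ * ‖z‖ ^ 2 ≤ 4 * ‖A‖ * (1 / 4) ^ 2 := by gcongr
    nlinarith
  have hlo : (K · - K 0) =o[𝓝 0] (fun w : E => ‖w - 0‖ ^ 2) := by
    have h1 := taylor2 (hc.an 0 (mem_ball_self one_pos)) hc.zero
    rw [hc.deriv] at h1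
    have h2 : (fun y : E => ‖y‖ ^ 3) =o[𝓝 0] fun y : E => ‖y‖ ^ 2 := by
      have h3 : (fun x : ℝ => x ^ 3) =o[𝓝 0] fun x : ℝ => x ^ 2 := isLittleO_pow_pow (by norm_num)
      have h4 : Tendsto (fun y : E => ‖y‖) (𝓝 0) (𝓝 0) := by
        have := (continuous_norm (E := E)).tendsto 0
        simpa using this
      exact h3.comp_tendsto h4
    have h5 := h1.trans_isLittleO h2
    simp only [sub_zero, hK0]
    exact h5
  have h1 := Complex.dist_le_mul_div_pow_of_mapsTo_ball_of_isLittleO (n := 2) hd hmaps hlo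
    (z := v) (by simpa using hv)
  rw [hK0, dist_zero_right, dist_zero_right] at h1
  calc ‖h v - A v - P2 h v‖ ≤ 12 * ‖A‖ * (‖v‖ / (1 / 4)) ^ (2 + 1) := h1
    _ = 768 * ‖A‖ * ‖v‖ ^ 3 := by ring

/-- second order remainder -/
theorem remainder2 (hc : IsCara A h) {v : E} (hv : ‖v‖ < 1 / 4) :
    ‖h v - A v‖ ≤ 196 * ‖A‖ * ‖v‖ ^ 2 := by
  have hA := norm_nonneg A
  have h1 := remainder3 hc hv
  have h2 := P2_bound hc v
  have h3 : h v - A v = (h v - A v - P2 h v) + P2 h v := by abel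
  rw [h3]
  refine (norm_add_le _ _).trans ?_
  have h4 : 768 * ‖A‖ * ‖v‖ ^ 3 ≤ 192 * ‖A‖ * ‖v‖ ^ 2 := by
    have h5 : ‖v‖ ^ 3 ≤ 1 / 4 * ‖v‖ ^ 2 := by
      nlinarith [sq_nonneg ‖v‖, norm_nonneg v]
    nlinarith
  linarith

/-- Harnack's inequality on the class `𝒩_A` -/
theorem harnack_vec (hc : IsCara A h) {m : ℝ} (hm : 0 < m)
    (hmA : ∀ x : E, m * ‖x‖ ^ 2 ≤ (inner ℂ x (A x)).re) {z : E} (hz : ‖z‖ < 1) :
    m * (1 - ‖z‖) / (1 + ‖z‖) * ‖z‖ ^ 2 ≤ (inner ℂ z (h z)).re := by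
  by_cases h0 : z = 0
  · rw [h0]; simp
  have hzn : 0 < ‖z‖ := norm_pos_iff.2 h0
  set e : E := (((‖z‖⁻¹ : ℝ)) : ℂ) • z with he
  have hen : ‖e‖ = 1 := by
    rw [he, norm_smul, Complex.norm_real, norm_inv, norm_norm, inv_mul_cancel₀ hzn.ne']
  have hze : ((‖z‖ : ℝ) : ℂ) • e = z := by
    rw [he, smul_smul, ← Complex.ofReal_mul, mul_inv_cancel₀ hzn.ne', Complex.ofReal_one, one_smul]
  set F : ℂ → ℂ := fun ζ => inner ℂ e (h (ζ • e)) with hF
  have hFd : DifferentiableOn ℂ F (ball 0 1) := by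
    have h1 : DifferentiableOn ℂ (fun ζ : ℂ => h (ζ • e)) (ball 0 1) := by
      apply hc.an.differentiableOn.comp (t := ball (0 : E) 1)
      · fun_prop
      · intro ζ hζ
        rw [mem_ball_zero_iff] at hζ ⊢
        rw [norm_smul, hen, mul_one]; exact hζ
    exact (innerSL ℂ e).differentiable.comp_differentiableOn h1
  have hF0 : F 0 = 0 := by simp only [hF, zero_smul, hc.zero, inner_zero_right]
  have hFder : HasDerivAt F (inner ℂ e (A e)) 0 := by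
    have h1 : HasDerivAt (fun ζ : ℂ => ζ • e) e 0 := by
      have := (hasDerivAt_id (0 : ℂ)).smul_const e
      simpa using this
    have h2 : HasFDerivAt h A ((fun ζ : ℂ => ζ • e) 0) := by
      simp only [zero_smul]
      rw [← hc.deriv]
      exact (hc.an 0 (mem_ball_self one_pos)).differentiableAt.hasFDerivAt
    have h3 := h2.comp_hasDerivAt (0 : ℂ) h1
    exact (innerSL ℂ e).hasFDerivAt.comp_hasDerivAt (0 : ℂ) h3
  have hq0 : dslope F 0 0 = inner ℂ e (A e) := by rw [dslope_same]; exact hFder.deriv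
  have hmul : ∀ ζ : ℂ, ζ ≠ 0 → dslope F 0 ζ = ((‖ζ‖ ^ 2 : ℝ) : ℂ)⁻¹ *
      inner ℂ (ζ • e) (h (ζ • e)) := by
    intro ζ hζ
    rw [dslope_of_ne _ hζ, slope_def_field, hF0, sub_zero, sub_zero, inner_smul_left]
    have h1 : ((‖ζ‖ ^ 2 : ℝ) : ℂ) = ζ * (starRingEnd ℂ) ζ := by
      rw [Complex.mul_conj, Complex.normSq_eq_norm_sq]
    have h2 : (starRingEnd ℂ) ζ ≠ 0 := by rw [Ne, map_eq_zero]; exact hζ
    rw [h1, hF]
    field_simp
  have hpos : ∀ ζ ∈ ball (0 : ℂ) 1, 0 < (dslope F 0 ζ).re := by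
    intro ζ hζ
    rw [mem_ball_zero_iff] at hζ
    by_cases hζ0 : ζ = 0
    · rw [hζ0, hq0]
      have := hmA e
      rw [hen] at this
      linarith
    · rw [hmul ζ hζ0, ← Complex.ofReal_inv, Complex.re_ofReal_mul]
      have hζn : 0 < ‖ζ‖ := norm_pos_iff.2 hζ0
      apply mul_pos (by positivity)
      apply hc.pos
      · rw [mem_ball_zero_iff, norm_smul, hen, mul_one]; exact hζ
      · intro h1
        have : ‖ζ • e‖ = 0 := by rw [h1, norm_zero]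
        rw [norm_smul, hen, mul_one] at this
        exact hζn.ne' this
  have h1 := harnack (q := dslope F 0)
    (by rw [Complex.differentiableOn_dslope (ball_mem_nhds _ one_pos)]; exact hFd) hpos
    (z := ((‖z‖ : ℝ) : ℂ)) (by rw [Complex.norm_real, norm_norm]; exact hz)
  rw [hq0, hmul _ (by exact_mod_cast hzn.ne'), hze, ← Complex.ofReal_inv, Complex.re_ofReal_mul,
    Complex.norm_real, norm_norm] at h1
  have h2 := hmA e
  rw [hen, one_pow, mul_one] at h2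
  have h3 : m * (1 - ‖z‖) / (1 + ‖z‖) ≤ (‖z‖ ^ 2)⁻¹ * (inner ℂ z (h z)).re := by
    refine le_trans ?_ h1
    have : 0 < 1 - ‖z‖ := by linarith
    gcongr
  rw [inv_mul_eq_div, le_div_iff₀ (by positivity)] at h3
  exact h3

end Pool.Agent.helper37.PR
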