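import Pool.Agent.helper37.PR.Defs

/-! Taylor expansions of second order. -/

set_option autoImplicit false

namespace Pool.Agent.helper37.PR

open Metric MeasureTheory Set Filter Topology Asymptotics

variable {E : Type*} [NormedAddCommGroup E] [InnerProductSpace ℂ E] [CompleteSpace E]

omit [CompleteSpace E] in
theorem P2_smul (h : E → E) (c : ℂ) (z : E) : P2 h (c • z) = c ^ 2 • P2 h z := by
  unfold P2
  have h1 : (fun _ : Fin 2 => c • z) = fun i : Fin 2 => (fun _ : Fin 2 => c) i • (fun _ => z) i :=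
    rfl
  rw [h1, ContinuousMultilinearMap.map_smul_univ, Finset.prod_const, Finset.card_univ,
    Fintype.card_fin, smul_comm]

omit [CompleteSpace E] in
theorem P2_continuous (h : E → E) : Continuous (P2 h) := by
  unfold P2
  apply Continuous.const_smul
  exact (iteratedFDeriv ℂ 2 h 0).cont.comp (continuous_pi fun _ => continuous_id)

omit [CompleteSpace E] in
theorem P2_differentiable (h : E → E) : Differentiable ℂ (P2 h) := by
  unfold P2
  apply Differentiable.const_smul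
  have h1 : Differentiable ℂ (fun z : E => (fun _ : Fin 2 => z)) :=
    differentiable_pi.2 fun _ => differentiable_id
  exact ((iteratedFDeriv ℂ 2 h 0).contDiff (n := 1)).differentiable (by norm_num) |>.comp h1

/-- second order Taylor formula -/
theorem taylor2 {h : E → E} (ha : AnalyticAt ℂ h 0) (h0 : h 0 = 0) :
    (fun y => h y - fderiv ℂ h 0 y - P2 h y) =O[𝓝 0] fun y => ‖y‖ ^ 3 := by
  obtain ⟨p, r, hp⟩ := ha
  have h1 := (hp.hasFPowerSeriesAt).isBigO_sub_partialSum_pow 3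
  refine h1.congr' (Eventually.of_forall fun y => ?_) (EventuallyEq.refl _ _)
  simp only [zero_add]
  have e0 : p 0 (fun _ => y) = 0 := by
    have := hp.factorial_smul y 0
    simp only [Nat.factorial_zero, one_smul, iteratedFDeriv_zero_apply] at this
    rw [this, h0]
  have e1 : p 1 (fun _ => y) = fderiv ℂ h 0 y := by
    have := hp.factorial_smul y 1
    simp only [Nat.factorial_one, one_smul] at this
    rw [this, iteratedFDeriv_one_apply]
  have e2 : p 2 (fun _ => y) = P2 h y := by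
    have := hp.factorial_smul y 2
    unfold P2
    rw [← this]
    simp only [Nat.factorial_two]
    rw [← Nat.cast_smul_eq_nsmul ℂ, smul_smul]
    norm_num
  rw [FormalMultilinearSeries.partialSum, Finset.sum_range_succ, Finset.sum_range_succ,
    Finset.sum_range_succ, Finset.sum_range_zero, e0, e1, e2]
  abel

/-- expansion along a curve `ζ ↦ ζ β(ζ)` -/
theorem curve_expand {h : E → E} (ha : AnalyticAt ℂ h 0) (h0 : h 0 = 0) {β : ℂ → E} {β' : E}
    (hβ : HasDerivAt β β' 0) :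
    HasDerivAt (fun ζ : ℂ => h (ζ • β ζ)) (fderiv ℂ h 0 (β 0)) 0 ∧
    HasDerivAt (dslope (fun ζ : ℂ => h (ζ • β ζ)) 0) (fderiv ℂ h 0 β' + P2 h (β 0)) 0 := by
  set A := fderiv ℂ h 0 with hA
  have hγ : HasDerivAt (fun ζ : ℂ => ζ • β ζ) (β 0) 0 := by
    have := (hasDerivAt_id (0 : ℂ)).fun_smul hβ
    simpa using this
  have hF : HasDerivAt (fun ζ : ℂ => h (ζ • β ζ)) (A (β 0)) 0 := by
    have h1 : HasFDerivAt h A ((fun ζ : ℂ => ζ • β ζ) 0) := by
      simp only [zero_smul]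
      exact ha.differentiableAt.hasFDerivAt
    exact h1.comp_hasDerivAt (0 : ℂ) hγ
  refine ⟨hF, ?_⟩
  set F : ℂ → E := fun ζ : ℂ => h (ζ • β ζ) with hFdef
  -- main part
  have hG : HasDerivAt (fun ζ : ℂ => A (β ζ) + ζ • P2 h (β ζ)) (A β' + P2 h (β 0)) 0 := by
    have h1 : HasDerivAt (fun ζ : ℂ => A (β ζ)) (A β') 0 := A.hasFDerivAt.comp_hasDerivAt (0 : ℂ) hβ
    have h2 : HasDerivAt (fun ζ : ℂ => ζ • P2 h (β ζ)) (P2 h (β 0)) 0 := by
      have h3 : DifferentiableAt ℂ (fun ζ : ℂ => P2 h (β ζ)) 0 :=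
        (P2_differentiable h _).comp (0 : ℂ) hβ.differentiableAt
      have h4 := (hasDerivAt_id (0 : ℂ)).fun_smul h3.hasDerivAt
      simpa using h4
    exact h1.add h2
  -- error
  have herr : HasDerivAt (fun ζ : ℂ => dslope F 0 ζ - (A (β ζ) + ζ • P2 h (β ζ))) 0 0 := by
    rw [hasDerivAt_iff_isLittleO]
    have hF0 : F 0 = 0 := by simp only [hFdef, zero_smul, h0]
    have hd0 : dslope F 0 0 = A (β 0) := by rw [dslope_same]; exact hF.deriv
    simp only [hd0, zero_smul, add_zero, sub_self, smul_zero, sub_zero]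
    -- bound of the error
    have hcont : Tendsto (fun ζ : ℂ => ζ • β ζ) (𝓝 0) (𝓝 0) := by
      have := hγ.continuousAt.tendsto
      simpa using this
    have hO := (taylor2 ha h0).comp_tendsto hcont
    have hβb : (fun ζ : ℂ => ‖ζ • β ζ‖ ^ 3) =O[𝓝 0] fun ζ : ℂ => ‖ζ‖ ^ 3 := by
      have h5 : (fun ζ : ℂ => ζ • β ζ) =O[𝓝 0] fun ζ : ℂ => ζ := by
        have h6 : β =O[𝓝 0] fun _ : ℂ => (1 : ℂ) := hβ.continuousAt.isBigO_one ℂ
        have h7 := (isBigO_refl (fun ζ : ℂ => ζ) (𝓝 0)).smul h6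
        refine h7.trans (IsBigO.of_bound 1 (Eventually.of_forall fun ζ => ?_))
        simp
      exact (h5.norm_norm).pow 3
    have hO2 := hO.trans hβb
    have hlo : (fun ζ : ℂ => ‖ζ‖ ^ 3) =o[𝓝 0] fun ζ : ℂ => ζ ^ 2 := by
      have h8 : (fun ζ : ℂ => ζ ^ 3) =o[𝓝 0] fun ζ : ℂ => ζ ^ 2 :=
        isLittleO_pow_pow (by norm_num)
      have h9 := h8.norm_left
      simpa using h9
    have hO3 := hO2.trans_isLittleO hlo
    rw [isLittleO_iff] at hO3 ⊢
    intro c hc
    filter_upwards [hO3 hc] with ζ hζ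
    by_cases hζ0 : ζ = 0
    · rw [hζ0, hd0]; simp
    · rw [dslope_of_ne _ hζ0, slope_def_module, sub_zero, hF0, sub_zero]
      simp only [Function.comp_apply] at hζ
      have e1 : ζ⁻¹ • F ζ - (A (β ζ) + ζ • P2 h (β ζ)) =
          ζ⁻¹ • (h (ζ • β ζ) - A (ζ • β ζ) - P2 h (ζ • β ζ)) := by
        rw [map_smul, P2_smul, smul_sub, smul_sub, smul_smul, smul_smul, inv_mul_cancel₀ hζ0,
          one_smul, show ζ⁻¹ * ζ ^ 2 = ζ by field_simp]
        abel
      rw [e1, norm_smul, norm_inv]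
      have hζn : 0 < ‖ζ‖ := norm_pos_iff.2 hζ0
      calc ‖ζ‖⁻¹ * ‖h (ζ • β ζ) - A (ζ • β ζ) - P2 h (ζ • β ζ)‖ ≤ ‖ζ‖⁻¹ * (c * ‖ζ ^ 2‖) := by
            gcongr
        _ = c * ‖ζ‖ := by rw [norm_pow]; field_simp
  have := herr.add hG
  rw [zero_add] at this
  refine this.congr_of_eventuallyEq (Eventually.of_forall fun ζ => ?_)
  simp

end Pool.Agent.helper37.PR
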