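import Pool.Agent.helper37.PR.Bound
import Pool.Agent.helper37.PR.AC

/-! Estimates along the flow. -/

set_option autoImplicit false

namespace Pool.Agent.helper37.PR

open Metric MeasureTheory Set Filter Topology Asymptotics

variable {E : Type*} [NormedAddCommGroup E] [InnerProductSpace ℂ E] [CompleteSpace E]

/-- the numerical data of `A` that are used -/
structure Num (A : E →L[ℂ] E) (m k : ℝ) : Prop where
  pos : 0 < m
  lower : ∀ x : E, m * ‖x‖ ^ 2 ≤ (inner ℂ x (A x)).re
  upper : ∀ x : E, (inner ℂ x (A x)).re ≤ k * ‖x‖ ^ 2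

variable {A : E →L[ℂ] E} {m k : ℝ} {h v : E → ℝ → E}

omit [CompleteSpace E] in
theorem Num.m_le_k (hN : Num A m k) {e : E} (he : ‖e‖ = 1) : m ≤ k := by
  have h1 := (hN.lower e).trans (hN.upper e)
  rw [he] at h1
  linarith

omit [CompleteSpace E] in
theorem reInner_self (x : E) : (inner ℂ x x).re = ‖x‖ ^ 2 := by
  have := inner_self_eq_norm_sq_to_K (𝕜 := ℂ) x
  rw [this]
  have h2 : ((‖x‖ : ℂ) ^ 2).re = ‖x‖ ^ 2 := by
    rw [← Complex.ofReal_pow, Complex.ofReal_re]
  exact h2

omit [CompleteSpace E] in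
theorem hasDerivAt_reInner {w v : ℝ → E} {w' v' : E} {t : ℝ} (hw : HasDerivAt w w' t)
    (hv : HasDerivAt v v' t) :
    HasDerivAt (fun t => (inner ℂ (w t) (v t)).re)
      ((inner ℂ (w t) v').re + (inner ℂ w' (v t)).re) t := by
  have h1 := HasDerivAt.inner ℂ hw hv
  have h2 := Complex.reCLM.hasFDerivAt.comp_hasDerivAt t h1
  have h3 : Complex.reCLM (inner ℂ (w t) v' + inner ℂ w' (v t)) =
      (inner ℂ (w t) v').re + (inner ℂ w' (v t)).re := by
    rw [Complex.reCLM_apply, Complex.add_re]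
  rw [h3] at h2
  exact h2

omit [CompleteSpace E] in
theorem reInner_comm (x y : E) : (inner ℂ x y).re = (inner ℂ y x).re := by
  rw [← inner_conj_symm, Complex.conj_re]

omit [CompleteSpace E] in
theorem hasDerivAt_normSq {v : ℝ → E} {v' : E} {t : ℝ} (hv : HasDerivAt v v' t) :
    HasDerivAt (fun t => ‖v t‖ ^ 2) (2 * (inner ℂ (v t) v').re) t := by
  have h1 := hasDerivAt_reInner hv hv
  rw [reInner_comm v' (v t)] at h1
  have h2 : (fun t => (inner ℂ (v t) (v t)).re) = fun t => ‖v t‖ ^ 2 := by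
    funext t; exact reInner_self _
  rw [h2] at h1
  convert h1 using 1
  ring

omit [CompleteSpace E] in
theorem ac_normSq {v : ℝ → E} {a b : ℝ} (hv : AbsolutelyContinuousOnInterval v a b) :
    AbsolutelyContinuousOnInterval (fun t => ‖v t‖ ^ 2) a b := by
  have h1 := ac_reInner hv hv
  have h2 : (fun t => (inner ℂ (v t) (v t)).re) = fun t => ‖v t‖ ^ 2 := by
    funext t; exact reInner_self _
  rwa [h2] at h1

omit [CompleteSpace E] in
theorem flow_le (hh : IsHerglotz A h) (hv : IsLoewner h v) {z : E} (hz : z ∈ ball (0 : E) 1)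
    {T : ℝ} (hT : 0 ≤ T) : ‖v z T‖ ≤ ‖z‖ := by
  have h1 := ac_le_zero hT (ac_normSq (hv.ac z hz T hT))
    (g' := fun t => 2 * (inner ℂ (v z t) (-(h (v z t) t))).re) (by
      filter_upwards [hh.cara, hv.ode z hz] with t h1 h2 ht _
      refine ⟨hasDerivAt_normSq (h2 ht), ?_⟩
      have h3 := (h1 ht).nonneg (hv.mem z hz t ht)
      rw [inner_neg_right, Complex.neg_re]
      linarith)
  simp only [hv.init z hz] at h1
  exact (pow_le_pow_iff_left₀ (norm_nonneg _) (norm_nonneg _) two_ne_zero).1 h1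

omit [CompleteSpace E] in
theorem ac_exp (c T : ℝ) : AbsolutelyContinuousOnInterval (fun t : ℝ => Real.exp (c * t)) 0 T := by
  apply ContDiffOn.absolutelyContinuousOnInterval
  fun_prop

theorem flow_decay (hN : Num A m k) (hh : IsHerglotz A h) (hv : IsLoewner h v) {z : E}
    (hz : z ∈ ball (0 : E) 1) {μ : ℝ} (hμ : μ ≤ m * (1 - ‖z‖) / (1 + ‖z‖))
    {T : ℝ} (hT : 0 ≤ T) : ‖v z T‖ ≤ ‖z‖ * Real.exp (-(μ * T)) := by
  have hz1 : ‖z‖ < 1 := by simpa using hz
  have h1 := ac_le_zero hT ((ac_exp (2 * μ) T).mul (ac_normSq (hv.ac z hz T hT)))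
    (g' := fun t => (Real.exp (2 * μ * t) * (2 * μ)) * ‖v z t‖ ^ 2 +
      Real.exp (2 * μ * t) * (2 * (inner ℂ (v z t) (-(h (v z t) t))).re)) (by
      filter_upwards [hh.cara, hv.ode z hz] with t h1 h2 ht _
      have e1 : HasDerivAt (fun t : ℝ => Real.exp (2 * μ * t)) (Real.exp (2 * μ * t) * (2 * μ)) t := by
        have := ((hasDerivAt_id t).const_mul (2 * μ)).exp
        simpa using this
      refine ⟨e1.mul (hasDerivAt_normSq (h2 ht)), ?_⟩
      have h3 := harnack_vec (h1 ht) hN.pos hN.lower (z := v z t)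
        (by simpa using hv.mem z hz t ht)
      have h4 := flow_le hh hv hz ht
      have h5 : μ ≤ m * (1 - ‖v z t‖) / (1 + ‖v z t‖) := by
        refine hμ.trans ?_
        have h6 := norm_nonneg (v z t)
        rw [div_le_div_iff₀ (by positivity) (by positivity)]
        nlinarith [hN.pos]
      rw [inner_neg_right, Complex.neg_re]
      have h7 : μ * ‖v z t‖ ^ 2 ≤ (inner ℂ (v z t) (h (v z t) t)).re :=
        (mul_le_mul_of_nonneg_right h5 (by positivity)).trans h3
      have h8 := Real.exp_pos (2 * μ * t)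
      nlinarith)
  simp only [Pi.mul_apply, hv.init z hz, mul_zero, Real.exp_zero, one_mul] at h1
  have h2 : ‖v z T‖ ^ 2 ≤ (‖z‖ * Real.exp (-(μ * T))) ^ 2 := by
    rw [mul_pow, ← Real.exp_nat_mul]
    have h3 : Real.exp (((2 : ℕ) : ℝ) * -(μ * T)) = (Real.exp (2 * μ * T))⁻¹ := by
      rw [← Real.exp_neg]; congr 1; push_cast; ring
    rw [h3, ← div_eq_mul_inv, le_div_iff₀ (Real.exp_pos _)]
    linarith
  exact (pow_le_pow_iff_left₀ (norm_nonneg _) (by positivity) two_ne_zero).1 h2

/-- the dual linear flow -/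
noncomputable def dual (A : E →L[ℂ] E) (u : E) (t : ℝ) : E :=
  (NormedSpace.exp ((t : ℂ) • (ContinuousLinearMap.adjoint A))) u

theorem dual_zero (A : E →L[ℂ] E) (u : E) : dual A u 0 = u := by
  simp [dual]

theorem dual_hasDerivAt (A : E →L[ℂ] E) (u : E) (t : ℝ) :
    HasDerivAt (dual A u) (ContinuousLinearMap.adjoint A (dual A u t)) t := by
  have h1 := hasDerivAt_exp_smul_const' (𝕂 := ℂ) (ContinuousLinearMap.adjoint A) ((t : ℝ) : ℂ)
  have h2 : HasDerivAt (fun s : ℝ => ((s : ℝ) : ℂ)) 1 t := Complex.ofRealCLM.hasDerivAt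
  have h3 := h1.scomp t h2
  rw [one_smul] at h3
  have h4 := ((ContinuousLinearMap.apply ℂ E u).restrictScalars ℝ).hasFDerivAt.comp_hasDerivAt t h3
  exact h4

theorem dual_inner (A : E →L[ℂ] E) (u x : E) (t : ℝ) :
    inner ℂ (dual A u t) x = inner ℂ u ((NormedSpace.exp ((t : ℂ) • A)) x) := by
  have h1 : NormedSpace.exp ((t : ℂ) • (ContinuousLinearMap.adjoint A)) =
      ContinuousLinearMap.adjoint (NormedSpace.exp ((t : ℂ) • A)) := by
    rw [← ContinuousLinearMap.star_eq_adjoint, ← ContinuousLinearMap.star_eq_adjoint,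
      NormedSpace.star_exp, star_smul]
    congr 2
    simp
  rw [dual, h1, ContinuousLinearMap.adjoint_inner_left]

theorem dual_ac (A : E →L[ℂ] E) (u : E) (T : ℝ) :
    AbsolutelyContinuousOnInterval (dual A u) 0 T := by
  apply ContDiffOn.absolutelyContinuousOnInterval
  apply ContDiff.contDiffOn
  rw [contDiff_one_iff_deriv]
  refine ⟨fun t => (dual_hasDerivAt A u t).differentiableAt, ?_⟩
  have h1 : deriv (dual A u) = fun t => ContinuousLinearMap.adjoint A (dual A u t) := by
    funext t; exact (dual_hasDerivAt A u t).deriv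
  rw [h1]
  have h2 : Continuous (dual A u) :=
    continuous_iff_continuousAt.2 fun t => (dual_hasDerivAt A u t).continuousAt
  exact (ContinuousLinearMap.continuous _).comp h2

theorem reInner_adjoint (A : E →L[ℂ] E) (x : E) :
    (inner ℂ x (ContinuousLinearMap.adjoint A x)).re = (inner ℂ x (A x)).re := by
  rw [ContinuousLinearMap.adjoint_inner_right, reInner_comm]

theorem dual_upper (hN : Num A m k) (u : E) {T : ℝ} (hT : 0 ≤ T) :
    ‖dual A u T‖ ≤ ‖u‖ * Real.exp (k * T) := by
  have h1 := ac_le_zero hT ((ac_exp (-(2 * k)) T).mul (ac_normSq (dual_ac A u T)))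
    (g' := fun t => (Real.exp (-(2 * k) * t) * (-(2 * k))) * ‖dual A u t‖ ^ 2 +
      Real.exp (-(2 * k) * t) * (2 * (inner ℂ (dual A u t)
        (ContinuousLinearMap.adjoint A (dual A u t))).re)) (by
      refine Eventually.of_forall fun t ht _ => ⟨?_, ?_⟩
      · have e1 : HasDerivAt (fun t : ℝ => Real.exp (-(2 * k) * t))
            (Real.exp (-(2 * k) * t) * (-(2 * k))) t := by
          have := ((hasDerivAt_id t).const_mul (-(2 * k))).exp
          simpa using this
        exact e1.mul (hasDerivAt_normSq (dual_hasDerivAt A u t))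
      · rw [reInner_adjoint]
        have := hN.upper (dual A u t)
        have h8 := Real.exp_pos (-(2 * k) * t)
        nlinarith)
  simp only [Pi.mul_apply, dual_zero, mul_zero, Real.exp_zero, one_mul] at h1
  have h2 : ‖dual A u T‖ ^ 2 ≤ (‖u‖ * Real.exp (k * T)) ^ 2 := by
    rw [mul_pow, ← Real.exp_nat_mul]
    have h3 : Real.exp (((2 : ℕ) : ℝ) * (k * T)) = (Real.exp (-(2 * k) * T))⁻¹ := by
      rw [← Real.exp_neg]; congr 1; push_cast; ring
    rw [h3, ← div_eq_mul_inv, le_div_iff₀ (Real.exp_pos _)]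
    linarith
  exact (pow_le_pow_iff_left₀ (norm_nonneg _) (by positivity) two_ne_zero).1 h2

theorem dual_lower (hN : Num A m k) (u : E) {T : ℝ} (hT : 0 ≤ T) :
    ‖u‖ ≤ ‖dual A u T‖ := by
  have h1 := ac_le_zero hT (ac_normSq (dual_ac A u T)).neg
    (g' := fun t => -(2 * (inner ℂ (dual A u t)
        (ContinuousLinearMap.adjoint A (dual A u t))).re)) (by
      refine Eventually.of_forall fun t ht _ => ⟨?_, ?_⟩
      · exact (hasDerivAt_normSq (dual_hasDerivAt A u t)).neg
      · rw [reInner_adjoint]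
        have := hN.lower (dual A u t)
        have h9 := hN.pos
        have : 0 ≤ m * ‖dual A u t‖ ^ 2 := by positivity
        linarith)
  simp only [Pi.neg_apply, dual_zero] at h1
  exact (pow_le_pow_iff_left₀ (norm_nonneg _) (by positivity) two_ne_zero).1 (by linarith)

theorem dual_norm_hasDerivAt (A : E →L[ℂ] E) {u : E} {t : ℝ} (hu : 0 < ‖dual A u t‖) :
    HasDerivAt (fun t => ‖dual A u t‖)
      ((inner ℂ (dual A u t) (A (dual A u t))).re / ‖dual A u t‖) t := by
  have h1 := (hasDerivAt_normSq (dual_hasDerivAt A u t)).sqrt (by positivity)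
  rw [reInner_adjoint, Real.sqrt_sq (norm_nonneg _)] at h1
  have h2 : (fun t => √(‖dual A u t‖ ^ 2)) = fun t => ‖dual A u t‖ := by
    funext t; exact Real.sqrt_sq (norm_nonneg _)
  rw [h2] at h1
  convert h1 using 1
  field_simp

end Pool.Agent.helper37.PR
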