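import Mathlib

/-! One-variable facts (positive real part on a circle). -/

set_option autoImplicit false

namespace Pool.Agent.helper37.PR

open Metric Complex Filter Topology Asymptotics

/-- max principle for the real part -/
theorem re_nonneg_of_sphere {g : ℂ → ℂ} {ρ R : ℝ} (hρ : 0 < ρ) (hR : ρ < R)
    (hg : DifferentiableOn ℂ g (ball 0 R)) (h : ∀ z, ‖z‖ = ρ → 0 ≤ (g z).re) :
    ∀ z, ‖z‖ ≤ ρ → 0 ≤ (g z).re := by
  intro z hz
  have hd : DifferentiableOn ℂ (fun z => exp (-(g z))) (ball 0 R) := hg.neg.cexp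
  have hcl : closure (ball (0 : ℂ) ρ) = closedBall 0 ρ := closure_ball 0 hρ.ne'
  have hdc : DiffContOnCl ℂ (fun z => exp (-(g z))) (ball 0 ρ) := by
    apply DifferentiableOn.diffContOnCl
    rw [hcl]
    exact hd.mono (closedBall_subset_ball hR)
  have h1 := norm_le_of_forall_mem_frontier_norm_le isBounded_ball hdc (C := 1) (by
    intro w hw
    rw [frontier_ball 0 hρ.ne', mem_sphere_zero_iff_norm] at hw
    rw [norm_exp, Real.exp_le_one_iff, neg_re]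
    linarith [h w hw]) (z := z) (by rw [hcl]; simpa using hz)
  rw [norm_exp, Real.exp_le_one_iff, neg_re] at h1
  linarith

/-- the corrected quotient `(M(z) - M(0) + conj (M(0)) z^2 / ρ^2) / z` -/
noncomputable def Mt (M : ℂ → ℂ) (ρ : ℝ) : ℂ → ℂ :=
  dslope (fun z => M z - M 0 + (starRingEnd ℂ) (M 0) * z ^ 2 / (ρ : ℂ) ^ 2) 0

theorem Mt_diff {M : ℂ → ℂ} {ρ R : ℝ} (hR : 0 < R) (hM : DifferentiableOn ℂ M (ball 0 R)) :
    DifferentiableOn ℂ (Mt M ρ) (ball 0 R) := by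
  unfold Mt
  rw [differentiableOn_dslope (ball_mem_nhds _ hR)]
  have h1 : DifferentiableOn ℂ (fun z : ℂ => (starRingEnd ℂ) (M 0) * z ^ 2 / (ρ : ℂ) ^ 2)
      (ball 0 R) := by fun_prop
  exact (hM.sub_const _).add h1

theorem Mt_apply (M : ℂ → ℂ) (ρ : ℝ) {z : ℂ} (hz : z ≠ 0) :
    Mt M ρ z = (M z - M 0 + (starRingEnd ℂ) (M 0) * z ^ 2 / (ρ : ℂ) ^ 2) / z := by
  unfold Mt
  rw [dslope_of_ne _ hz, slope_def_field]
  simp

theorem Mt_zero {M : ℂ → ℂ} {ρ : ℝ} {m : ℂ} (hM : HasDerivAt M m 0) : Mt M ρ 0 = m := by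
  unfold Mt
  rw [dslope_same]
  have h1 : HasDerivAt (fun z : ℂ => (starRingEnd ℂ) (M 0) * z ^ 2 / (ρ : ℂ) ^ 2) 0 0 := by
    have h2 := ((hasDerivAt_pow 2 (0 : ℂ)).const_mul ((starRingEnd ℂ) (M 0))).div_const
      ((ρ : ℂ) ^ 2)
    simpa using h2
  have h3 := (hM.sub_const (M 0)).add h1
  rw [add_zero] at h3
  exact h3.deriv

theorem Mt_re_nonneg {M : ℂ → ℂ} {ρ R : ℝ} (hρ : 0 < ρ) (hR : ρ < R)
    (hM : DifferentiableOn ℂ M (ball 0 R)) (h : ∀ z, ‖z‖ = ρ → 0 ≤ (M z / z).re) :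
    ∀ z, ‖z‖ ≤ ρ → 0 ≤ (Mt M ρ z).re := by
  apply re_nonneg_of_sphere hρ hR (Mt_diff (hρ.trans hR) hM)
  intro z hz
  have hz0 : z ≠ 0 := by
    intro h0
    rw [h0, norm_zero] at hz
    exact hρ.ne hz
  rw [Mt_apply _ _ hz0]
  have hρ0 : (ρ : ℂ) ≠ 0 := by exact_mod_cast hρ.ne'
  have hcc : z * (starRingEnd ℂ) z = (ρ : ℂ) ^ 2 := by
    rw [mul_conj, normSq_eq_norm_sq, hz]; push_cast; ring
  have hcz : (starRingEnd ℂ) z ≠ 0 := by
    rw [Ne, map_eq_zero]; exact hz0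
  have h1 : (M z - M 0 + (starRingEnd ℂ) (M 0) * z ^ 2 / (ρ : ℂ) ^ 2) / z =
      M z / z - (M 0 / z - (starRingEnd ℂ) (M 0 / z)) := by
    rw [map_div₀, ← hcc]
    field_simp
    ring
  rw [h1, sub_re, sub_re, conj_re]
  have := h z hz
  linarith

/-- `Re M'(0) ≥ 0` -/
theorem re_deriv_nonneg {M : ℂ → ℂ} {ρ R : ℝ} (hρ : 0 < ρ) (hR : ρ < R)
    (hM : DifferentiableOn ℂ M (ball 0 R)) (h : ∀ z, ‖z‖ = ρ → 0 ≤ (M z / z).re) {m : ℂ}
    (hm : HasDerivAt M m 0) : 0 ≤ m.re := by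
  have := Mt_re_nonneg hρ hR hM h 0 (by rw [norm_zero]; exact hρ.le)
  rwa [Mt_zero hm] at this

/-- Carathéodory estimate -/
theorem caratheodory {q : ℂ → ℂ} (hq : DifferentiableOn ℂ q (ball 0 1))
    (hre : ∀ z ∈ ball (0 : ℂ) 1, 0 ≤ (q z).re) {z : ℂ} (hz : ‖z‖ < 1) :
    ‖q z - q 0‖ ≤ 2 * (q 0).re * ‖z‖ / (1 - ‖z‖) := by
  have hpos : ∀ ε > 0, ‖q z - q 0‖ ≤ 2 * ((q 0).re + ε) * ‖z‖ / (1 - ‖z‖) := by
    intro ε hε
    have h0 := hre 0 (mem_ball_self one_pos)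
    have h1 := Complex.borelCaratheodory_zero (M := (q 0).re + ε) (R := 1)
      (f := fun z => -(q z - q 0)) (z := z) (by linarith) ((hq.sub_const _).neg) (by
        intro w hw
        have := hre w hw
        simp only [Set.mem_ofPred_eq, neg_re, sub_re]
        linarith) one_pos (by simpa using hz) (by simp)
    rw [norm_neg] at h1
    exact h1
  have hz' : 0 < 1 - ‖z‖ := by linarith
  apply le_of_forall_pos_le_add
  intro δ hδ
  have h2 := hpos (δ * (1 - ‖z‖) / (2 * (‖z‖ + 1))) (by positivity)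
  refine h2.trans ?_
  rw [div_le_iff₀ hz']
  have h3 : (2 * (q 0).re * ‖z‖ / (1 - ‖z‖) + δ) * (1 - ‖z‖) =
      2 * (q 0).re * ‖z‖ + δ * (1 - ‖z‖) := by field_simp
  rw [h3]
  have h4 : 2 * ((q 0).re + δ * (1 - ‖z‖) / (2 * (‖z‖ + 1))) * ‖z‖ =
      2 * (q 0).re * ‖z‖ + δ * (1 - ‖z‖) * (‖z‖ / (‖z‖ + 1)) := by
    have : ‖z‖ + 1 ≠ 0 := by positivity
    field_simp
  rw [h4]
  have h5 : ‖z‖ / (‖z‖ + 1) ≤ 1 := by
    rw [div_le_one (by positivity)]; linarith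
  nlinarith [mul_pos hδ hz']

/-- Harnack's lower bound -/
theorem harnack {q : ℂ → ℂ} (hq : DifferentiableOn ℂ q (ball 0 1))
    (hre : ∀ z ∈ ball (0 : ℂ) 1, 0 < (q z).re) {z : ℂ} (hz : ‖z‖ < 1) :
    (q 0).re * (1 - ‖z‖) / (1 + ‖z‖) ≤ (q z).re := by
  have h0 := hre 0 (mem_ball_self one_pos)
  set a := q 0 with ha
  have hden : ∀ w ∈ ball (0 : ℂ) 1, q w + (starRingEnd ℂ) a ≠ 0 := by
    intro w hw h
    have h1 := congrArg re h
    rw [add_re, conj_re, zero_re] at h1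
    linarith [hre w hw]
  have hd : DifferentiableOn ℂ (fun w => (q w - a) / (q w + (starRingEnd ℂ) a)) (ball 0 1) :=
    (hq.sub_const _).div (hq.add_const _) hden
  have hmaps : Set.MapsTo (fun w => (q w - a) / (q w + (starRingEnd ℂ) a)) (ball 0 1)
      (closedBall 0 1) := by
    intro w hw
    rw [mem_closedBall_zero_iff, norm_div, div_le_one (norm_pos_iff.2 (hden w hw))]
    rw [← sq_le_sq₀ (norm_nonneg _) (norm_nonneg _), ← normSq_eq_norm_sq, ← normSq_eq_norm_sq,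
      normSq_apply, normSq_apply, sub_re, sub_im, add_re, add_im, conj_re, conj_im]
    have := hre w hw
    nlinarith
  have h1 := norm_le_norm_of_mapsTo_ball hd hmaps (by simp [← ha]) hz
  rw [norm_div, div_le_iff₀ (norm_pos_iff.2 (hden z (by simpa using hz)))] at h1
  have h2 : ‖q z - a‖ ^ 2 ≤ (‖z‖ * ‖q z + (starRingEnd ℂ) a‖) ^ 2 :=
    pow_le_pow_left₀ (norm_nonneg _) h1 2
  rw [mul_pow, ← normSq_eq_norm_sq (q z - a), ← normSq_eq_norm_sq (q z + (starRingEnd ℂ) a),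
      normSq_apply, normSq_apply, sub_re, sub_im, add_re, add_im, conj_re, conj_im] at h2
  have hz1 : ‖z‖ ^ 2 ≤ 1 := by
    have := norm_nonneg z
    nlinarith
  have h3 : (a.re - (q z).re) ^ 2 ≤ (‖z‖ * ((q z).re + a.re)) ^ 2 := by
    nlinarith [mul_nonneg (sub_nonneg.2 hz1) (sq_nonneg ((q z).im - a.im))]
  have hqz := hre z (by simpa using hz)
  have h4 : a.re - (q z).re ≤ ‖z‖ * ((q z).re + a.re) := by
    exact (le_abs_self _).trans
      (abs_le_of_sq_le_sq h3 (mul_nonneg (norm_nonneg _) (by linarith)))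
  rw [div_le_iff₀ (by positivity)]
  nlinarith

end Pool.Agent.helper37.PR
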