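import Pool.Agent.helper37.PR.Expand
import Pool.Agent.helper37.PR.OneVar

/-! The key inequality for the second order part of a map of the class `𝒩_A`. -/

set_option autoImplicit false

namespace Pool.Agent.helper37.PR

open Metric MeasureTheory Set Filter Topology Asymptotics

variable {E : Type*} [NormedAddCommGroup E] [InnerProductSpace ℂ E] [CompleteSpace E]
variable {A : E →L[ℂ] E} {h : E → E}

omit [CompleteSpace E] in
theorem IsCara.nonneg (hc : IsCara A h) {z : E} (hz : z ∈ ball (0 : E) 1) :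
    0 ≤ (inner ℂ z (h z)).re := by
  by_cases h0 : z = 0
  · rw [h0]; simp
  · exact (hc.pos z hz h0).le

/-- the direction function of the curve -/
noncomputable def bet (b c : E) (s ζ : ℂ) : E := (1 + s * ζ)⁻¹ • (b + ζ • c)

omit [CompleteSpace E] in
theorem bet_zero (b c : E) (s : ℂ) : bet b c s 0 = b := by
  simp [bet]

omit [CompleteSpace E] in
theorem bet_hasDerivAt (b c : E) (s : ℂ) : HasDerivAt (bet b c s) (c - s • b) 0 := by
  have h1 : HasDerivAt (fun ζ : ℂ => (1 + s * ζ)⁻¹) (-s) 0 := by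
    have h2 : HasDerivAt (fun ζ : ℂ => 1 + s * ζ) s 0 := by
      have := ((hasDerivAt_id (0 : ℂ)).const_mul s).const_add 1
      simpa using this
    have h3 := h2.fun_inv (by simp)
    simpa using h3
  have h4 : HasDerivAt (fun ζ : ℂ => b + ζ • c) c 0 := by
    have := ((hasDerivAt_id (0 : ℂ)).smul_const c).const_add b
    simpa using this
  have h5 := h1.fun_smul h4
  have h6 : (1 + s * 0)⁻¹ • c + -s • (b + (0 : ℂ) • c) = c - s • b := by
    simp [sub_eq_add_neg]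
  rw [h6] at h5
  exact h5

/-- the curve stays in the ball -/
def GoodCurve (b c : E) (s : ℂ) (R : ℝ) : Prop :=
  ∀ ζ : ℂ, ‖ζ‖ < R → 1 + s * ζ ≠ 0 ∧ ‖ζ • bet b c s ζ‖ < 1

omit [CompleteSpace E] in
theorem goodCurve_F (hc : IsCara A h) {b c : E} {s : ℂ} {R : ℝ} (hg : GoodCurve b c s R) :
    DifferentiableOn ℂ (fun ζ : ℂ => h (ζ • bet b c s ζ)) (ball 0 R) := by
  intro ζ hζ
  rw [mem_ball_zero_iff] at hζ
  obtain ⟨h1, h2⟩ := hg ζ hζ
  have h3 : DifferentiableAt ℂ (fun ζ : ℂ => ζ • bet b c s ζ) ζ := by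
    unfold bet
    have h4 : DifferentiableAt ℂ (fun ζ : ℂ => (1 + s * ζ)⁻¹) ζ := by
      have h40 : DifferentiableAt ℂ (fun ζ : ℂ => 1 + s * ζ) ζ := by fun_prop
      exact h40.fun_inv h1
    have h5 : DifferentiableAt ℂ (fun ζ : ℂ => b + ζ • c) ζ := by fun_prop
    exact differentiableAt_id.fun_smul (h4.fun_smul h5)
  have h6 : DifferentiableAt ℂ h (ζ • bet b c s ζ) :=
    (hc.an _ (by simpa using h2)).differentiableAt
  exact (DifferentiableAt.comp ζ h6 h3).differentiableWithinAt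

/-- the auxiliary scalar function -/
noncomputable def Mfun (h : E → E) (b c : E) (s : ℂ) (ρ : ℝ) (ζ : ℂ) : ℂ :=
  (1 + s * ζ) * ((ρ : ℂ) ^ 2 * inner ℂ b (h (ζ • bet b c s ζ)) +
    (ρ : ℂ) ^ 4 * inner ℂ c (dslope (fun ζ : ℂ => h (ζ • bet b c s ζ)) 0 ζ))

theorem Mfun_diff (hc : IsCara A h) {b c : E} {s : ℂ} {R : ℝ} (hR : 0 < R)
    (hg : GoodCurve b c s R) (ρ : ℝ) : DifferentiableOn ℂ (Mfun h b c s ρ) (ball 0 R) := by
  have h1 := goodCurve_F hc hg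
  have h2 : DifferentiableOn ℂ (dslope (fun ζ : ℂ => h (ζ • bet b c s ζ)) 0) (ball 0 R) := by
    rw [Complex.differentiableOn_dslope (ball_mem_nhds _ hR)]; exact h1
  have h3 : DifferentiableOn ℂ (fun ζ : ℂ => inner ℂ b (h (ζ • bet b c s ζ))) (ball 0 R) :=
    (innerSL ℂ b).differentiable.comp_differentiableOn h1
  have h4 : DifferentiableOn ℂ (fun ζ : ℂ => inner ℂ c
      (dslope (fun ζ : ℂ => h (ζ • bet b c s ζ)) 0 ζ)) (ball 0 R) :=
    (innerSL ℂ c).differentiable.comp_differentiableOn h2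
  unfold Mfun
  have h5 : DifferentiableOn ℂ (fun ζ : ℂ => 1 + s * ζ) (ball 0 R) := by fun_prop
  exact h5.mul ((h3.const_mul _).add (h4.const_mul _))

theorem Mfun_hasDerivAt (hc : IsCara A h) (b c : E) (s : ℂ) (ρ : ℝ) :
    HasDerivAt (Mfun h b c s ρ) ((ρ : ℂ) ^ 2 * inner ℂ b (A b) +
      (ρ : ℂ) ^ 4 * inner ℂ c (A (c - s • b) + P2 h b) + s * ((ρ : ℂ) ^ 4 * inner ℂ c (A b))) 0 := by
  obtain ⟨h1, h2⟩ := curve_expand (hc.an 0 (mem_ball_self one_pos)) hc.zero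
    (bet_hasDerivAt b c s)
  rw [hc.deriv, bet_zero] at h1
  rw [hc.deriv, bet_zero] at h2
  have h3 : HasDerivAt (fun ζ : ℂ => inner ℂ b (h (ζ • bet b c s ζ))) (inner ℂ b (A b)) 0 :=
    (innerSL ℂ b).hasFDerivAt.comp_hasDerivAt (0 : ℂ) h1
  have h4 : HasDerivAt (fun ζ : ℂ => inner ℂ c
      (dslope (fun ζ : ℂ => h (ζ • bet b c s ζ)) 0 ζ)) (inner ℂ c (A (c - s • b) + P2 h b)) 0 :=
    (innerSL ℂ c).hasFDerivAt.comp_hasDerivAt (0 : ℂ) h2
  have h5 : HasDerivAt (fun ζ : ℂ => 1 + s * ζ) s 0 := by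
    have := ((hasDerivAt_id (0 : ℂ)).const_mul s).const_add 1
    simpa using this
  have h6 := h5.fun_mul ((h3.const_mul ((ρ : ℂ) ^ 2)).fun_add (h4.const_mul ((ρ : ℂ) ^ 4)))
  have e1 : inner ℂ b (h ((0 : ℂ) • bet b c s 0)) = 0 := by
    rw [zero_smul, hc.zero, inner_zero_right]
  have e2 : dslope (fun ζ : ℂ => h (ζ • bet b c s ζ)) 0 0 = A b := by
    rw [dslope_same]; exact h1.deriv
  have e3 : s * ((ρ : ℂ) ^ 2 * inner ℂ b (h ((0 : ℂ) • bet b c s 0)) + (ρ : ℂ) ^ 4 *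
      inner ℂ c (dslope (fun ζ : ℂ => h (ζ • bet b c s ζ)) 0 0)) +
      (1 + s * 0) * ((ρ : ℂ) ^ 2 * inner ℂ b (A b) + (ρ : ℂ) ^ 4 *
        inner ℂ c (A (c - s • b) + P2 h b)) =
      (ρ : ℂ) ^ 2 * inner ℂ b (A b) +
      (ρ : ℂ) ^ 4 * inner ℂ c (A (c - s • b) + P2 h b) + s * ((ρ : ℂ) ^ 4 * inner ℂ c (A b)) := by
    rw [e1, e2]
    ring
  rw [e3] at h6
  exact h6

theorem Mfun_re (hc : IsCara A h) {b c : E} {s : ℂ} {R ρ : ℝ} (hρ : 0 < ρ) (hρR : ρ < R)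
    (hg : GoodCurve b c s R) {ζ : ℂ} (hζ : ‖ζ‖ = ρ) : 0 ≤ (Mfun h b c s ρ ζ / ζ).re := by
  have hζ0 : ζ ≠ 0 := by
    intro h0
    rw [h0, norm_zero] at hζ
    exact hρ.ne hζ
  obtain ⟨h1, h2⟩ := hg ζ (by rw [hζ]; exact hρR)
  have hF0 : h ((0 : ℂ) • bet b c s 0) = 0 := by rw [zero_smul, hc.zero]
  have hcc : (ρ : ℂ) ^ 2 = ζ * (starRingEnd ℂ) ζ := by
    rw [Complex.mul_conj, Complex.normSq_eq_norm_sq, hζ]; push_cast; ring
  set γ := ζ • bet b c s ζ with hγ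
  have e1 : Mfun h b c s ρ ζ / ζ = ((1 + s * ζ) * (starRingEnd ℂ) (1 + s * ζ)) *
      inner ℂ γ (h γ) := by
    have e2 : (1 + s * ζ) • γ = ζ • b + (ζ ^ 2) • c := by
      rw [hγ, bet, smul_smul, smul_smul, show (1 + s * ζ) * ζ * (1 + s * ζ)⁻¹ = ζ by
        field_simp, smul_add, smul_smul, pow_two]
    have e3 : (starRingEnd ℂ) (1 + s * ζ) * inner ℂ γ (h γ) =
        (starRingEnd ℂ) ζ * inner ℂ b (h γ) + ((starRingEnd ℂ) ζ) ^ 2 * inner ℂ c (h γ) := by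
      rw [← inner_smul_left, e2, inner_add_left, inner_smul_left, inner_smul_left, map_pow]
    rw [mul_assoc, e3]
    unfold Mfun
    rw [dslope_of_ne _ hζ0, slope_def_module, sub_zero, hF0, sub_zero, inner_smul_right, ← hγ,
      show (ρ : ℂ) ^ 4 = ((ρ : ℂ) ^ 2) ^ 2 by ring, hcc]
    field_simp
  rw [e1, Complex.mul_conj, Complex.re_ofReal_mul]
  exact mul_nonneg (Complex.normSq_nonneg _) (hc.nonneg (by simpa using h2))

omit [CompleteSpace E] in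
theorem goodCurve_of {b c : E} (hbc : ‖b‖ ^ 2 + ‖c‖ ^ 2 ≤ 1) :
    GoodCurve b c (inner ℂ b c) 1 := by
  intro ζ hζ
  set s : ℂ := inner ℂ b c with hs
  have hsn : ‖s‖ ≤ 1 / 2 := by
    have := norm_inner_le_norm (𝕜 := ℂ) b c
    nlinarith [sq_nonneg (‖b‖ - ‖c‖)]
  have hne : 1 + s * ζ ≠ 0 := by
    intro h0
    have h1 : s * ζ = -1 := by linear_combination h0
    have h2 : ‖s * ζ‖ = 1 := by rw [h1, norm_neg, norm_one]
    rw [norm_mul] at h2
    nlinarith [norm_nonneg s, norm_nonneg ζ]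
  refine ⟨hne, ?_⟩
  have hle : ‖b + ζ • c‖ ≤ ‖1 + s * ζ‖ := by
    rw [← sq_le_sq₀ (norm_nonneg _) (norm_nonneg _), @norm_add_sq ℂ, inner_smul_right, ← hs,
      norm_smul]
    have e1 : ‖1 + s * ζ‖ ^ 2 = 1 + 2 * (s * ζ).re + ‖s‖ ^ 2 * ‖ζ‖ ^ 2 := by
      rw [← Complex.normSq_eq_norm_sq, Complex.normSq_apply, ← Complex.normSq_eq_norm_sq,
        ← Complex.normSq_eq_norm_sq, Complex.normSq_apply, Complex.normSq_apply]
      simp only [Complex.add_re, Complex.one_re, Complex.mul_re, Complex.add_im, Complex.one_im,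
        Complex.mul_im]
      ring
    rw [e1, mul_comm ζ s]
    have hz1 : ‖ζ‖ ^ 2 ≤ 1 := by nlinarith [norm_nonneg ζ]
    have hz2 := mul_nonneg (sq_nonneg ‖s‖) (sq_nonneg ‖ζ‖)
    have e2 : RCLike.re (s * ζ) = (s * ζ).re := rfl
    rw [e2]
    nlinarith [mul_le_mul_of_nonneg_right hz1 (sq_nonneg ‖c‖)]
  have h3 : ‖bet b c s ζ‖ ≤ 1 := by
    rw [bet, norm_smul, norm_inv, inv_mul_le_iff₀ (norm_pos_iff.2 hne), mul_one]
    exact hle
  rw [norm_smul]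
  nlinarith [norm_nonneg ζ, norm_nonneg (bet b c s ζ)]

theorem key_rho (hc : IsCara A h) {b c : E} (hbc : ‖b‖ ^ 2 + ‖c‖ ^ 2 ≤ 1) {ρ : ℝ} (h0 : 0 < ρ)
    (h1 : ρ < 1) : 0 ≤ ρ ^ 2 * (inner ℂ b (A b)).re +
      ρ ^ 4 * ((inner ℂ c (A c)).re + (inner ℂ c (P2 h b)).re) := by
  have hg := goodCurve_of hbc
  have h2 := re_deriv_nonneg h0 h1 (Mfun_diff hc one_pos hg ρ)
    (fun ζ hζ => Mfun_re hc h0 h1 hg hζ) (Mfun_hasDerivAt hc b c (inner ℂ b c) ρ)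
  have e1 : (ρ : ℂ) ^ 2 * inner ℂ b (A b) +
      (ρ : ℂ) ^ 4 * inner ℂ c (A (c - (inner ℂ b c : ℂ) • b) + P2 h b) +
        (inner ℂ b c : ℂ) * ((ρ : ℂ) ^ 4 * inner ℂ c (A b)) =
      ((ρ ^ 2 : ℝ) : ℂ) * inner ℂ b (A b) +
        ((ρ ^ 4 : ℝ) : ℂ) * (inner ℂ c (A c) + inner ℂ c (P2 h b)) := by
    rw [map_sub, map_smul, inner_add_right, inner_sub_right, inner_smul_right]
    push_cast
    ring
  rw [e1, Complex.add_re, Complex.re_ofReal_mul, Complex.re_ofReal_mul, Complex.add_re] at h2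
  exact h2

theorem key_re (hc : IsCara A h) {b c : E} (hbc : ‖b‖ ^ 2 + ‖c‖ ^ 2 ≤ 1) :
    0 ≤ (inner ℂ b (A b)).re + (inner ℂ c (A c)).re + (inner ℂ c (P2 h b)).re := by
  set x := (inner ℂ b (A b)).re
  set y := (inner ℂ c (A c)).re + (inner ℂ c (P2 h b)).re
  have h1 : Tendsto (fun ρ : ℝ => ρ ^ 2 * x + ρ ^ 4 * y) (𝓝[<] 1) (𝓝 (1 ^ 2 * x + 1 ^ 4 * y)) := by
    apply Tendsto.mono_left _ nhdsWithin_le_nhds
    apply Continuous.tendsto
    fun_prop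
  have h2 := ge_of_tendsto h1 (b := 0) (by
    have h3 : Ioo (0 : ℝ) 1 ∈ 𝓝[<] (1 : ℝ) := Ioo_mem_nhdsLT (by norm_num)
    filter_upwards [h3] with ρ hρ
    exact key_rho hc hbc hρ.1 hρ.2)
  have h4 : (1 : ℝ) ^ 2 * x + 1 ^ 4 * y = x + y := by ring
  rw [h4] at h2
  have h5 : x + y = x + (inner ℂ c (A c)).re + (inner ℂ c (P2 h b)).re := by
    simp only [y]; ring
  linarith

/-- **The key inequality.** -/
theorem key (hc : IsCara A h) {b c : E} (hbc : ‖b‖ ^ 2 + ‖c‖ ^ 2 ≤ 1) :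
    ‖(inner ℂ c (P2 h b) : ℂ)‖ ≤ (inner ℂ b (A b)).re + (inner ℂ c (A c)).re := by
  set w : ℂ := inner ℂ c (P2 h b) with hw
  have hphase : ∀ u : ℂ, ‖u‖ = 1 → 0 ≤ (inner ℂ b (A b)).re + (inner ℂ c (A c)).re +
      ((starRingEnd ℂ) u * w).re := by
    intro u hu
    have h1 := key_re hc (b := b) (c := u • c) (by rw [norm_smul, hu, one_mul]; exact hbc)
    have e1 : (inner ℂ (u • c) (A (u • c)) : ℂ) = inner ℂ c (A c) := by
      rw [map_smul, inner_smul_left, inner_smul_right, ← mul_assoc, mul_comm ((starRingEnd ℂ) u),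
        Complex.mul_conj, Complex.normSq_eq_norm_sq, hu]
      simp
    rw [e1, inner_smul_left] at h1
    exact h1
  by_cases hw0 : w = 0
  · have h1 := hphase 1 norm_one
    rw [hw0] at h1 ⊢
    simpa using h1
  · have hwn : (‖w‖ : ℂ) ≠ 0 := by
      exact_mod_cast (norm_pos_iff.2 hw0).ne'
    have h1 := hphase (-w / ‖w‖) (by
      rw [norm_div, norm_neg, Complex.norm_real, norm_norm, div_self (norm_pos_iff.2 hw0).ne'])
    have e1 : (starRingEnd ℂ) (-w / ‖w‖) * w = ((-‖w‖ : ℝ) : ℂ) := by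
      rw [map_div₀, map_neg, Complex.conj_ofReal]
      have h2 : (starRingEnd ℂ) w * w = (‖w‖ : ℂ) ^ 2 := by
        rw [mul_comm, Complex.mul_conj, Complex.normSq_eq_norm_sq]; push_cast; ring
      have h3 : -(starRingEnd ℂ) w / (‖w‖ : ℂ) * w = -((starRingEnd ℂ) w * w) / (‖w‖ : ℂ) := by ring
      rw [h3, h2]
      push_cast
      field_simp
    rw [e1, Complex.ofReal_re] at h1
    linarith

end Pool.Agent.helper37.PR
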